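import Pool.Agent.GeoThick.Flat

/-!
The drawing on concentric circles.
-/

namespace Pool.Agent.GeoThick

open Filter Topology Real

/-- positions on concentric circles of radii `N / (2π) + i` -/
noncomputable def P (N : ℕ) (x : ℤ) (i : ℕ) : ℝ × ℝ :=
  ((N / (2 * π) + i) * sin (2 * π * x / N), (N / (2 * π) + i) * cos (2 * π * x / N))

lemma sin_eq_mul_sinc (y : ℝ) : sin y = y * sinc y := by
  by_cases h : y = 0
  · simp [h]
  · rw [sinc_of_ne_zero h]
    field_simp

lemma tendsto_P (x : ℤ) (i : ℕ) :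
    Tendsto (fun N : ℕ => P N x i - (0, (N : ℝ) / (2 * π))) atTop (𝓝 (fl x i)) := by
  have hy : Tendsto (fun N : ℕ => 2 * π * x / (N : ℝ)) atTop (𝓝 0) :=
    tendsto_const_div_atTop_nhds_zero_nat _
  have hy2 : Tendsto (fun N : ℕ => 2 * π * x / (N : ℝ) / 2) atTop (𝓝 0) := by
    simpa using hy.div_const 2
  have hs : Tendsto (fun N : ℕ => sinc (2 * π * x / (N : ℝ))) atTop (𝓝 1) := by
    have := (continuous_sinc.tendsto 0).comp hy
    rwa [sinc_zero] at this
  have hs2 : Tendsto (fun N : ℕ => sinc (2 * π * x / (N : ℝ) / 2)) atTop (𝓝 1) := by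
    have := (continuous_sinc.tendsto 0).comp hy2
    rwa [sinc_zero] at this
  have hsin : Tendsto (fun N : ℕ => sin (2 * π * x / (N : ℝ))) atTop (𝓝 0) := by
    have := (continuous_sin.tendsto 0).comp hy
    rwa [sin_zero] at this
  have hcos : Tendsto (fun N : ℕ => cos (2 * π * x / (N : ℝ))) atTop (𝓝 1) := by
    have := (continuous_cos.tendsto 0).comp hy
    rwa [cos_zero] at this
  refine Tendsto.prodMk_nhds ?_ ?_
  · have h1 : Tendsto (fun N : ℕ => (x : ℝ) * sinc (2 * π * x / (N : ℝ)) +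
        i * sin (2 * π * x / (N : ℝ))) atTop (𝓝 ((x : ℝ) * 1 + i * 0)) :=
      (hs.const_mul _).add (hsin.const_mul _)
    simp only [mul_one, mul_zero, add_zero] at h1
    refine h1.congr' ?_
    filter_upwards [eventually_gt_atTop 0] with N hN
    have hN' : (N : ℝ) ≠ 0 := by positivity
    simp only [P, sub_zero]
    rw [add_mul, sin_eq_mul_sinc (2 * π * x / N)]
    field_simp
  · have h1 : Tendsto (fun N : ℕ => -(x : ℝ) * (2 * π * x / (N : ℝ) / 2) *
        sinc (2 * π * x / (N : ℝ) / 2) ^ 2 + i * cos (2 * π * x / (N : ℝ))) atTop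
        (𝓝 (-(x : ℝ) * 0 * 1 ^ 2 + i * 1)) :=
      ((hy2.const_mul _).mul (hs2.pow 2)).add (hcos.const_mul _)
    simp only [mul_one, mul_zero, zero_mul, zero_add] at h1
    refine h1.congr' ?_
    filter_upwards [eventually_gt_atTop 0] with N hN
    have hN' : (N : ℝ) ≠ 0 := by positivity
    simp only [P]
    have h2 : cos (2 * π * x / N) = 1 - 2 * ((2 * π * x / (N : ℝ) / 2) *
        sinc (2 * π * x / (N : ℝ) / 2)) ^ 2 := by
      rw [← sin_eq_mul_sinc]
      have h3 := cos_two_mul (2 * π * x / (N : ℝ) / 2)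
      have h4 := sin_sq_add_cos_sq (2 * π * x / (N : ℝ) / 2)
      have h5 : 2 * (2 * π * x / (N : ℝ) / 2) = 2 * π * x / N := by ring
      rw [h5] at h3
      rw [h3]
      linarith
    rw [add_mul]
    nth_rewrite 2 [h2]
    field_simp
    ring

lemma fl_inj {x y : ℤ} {i j : ℕ} (h : fl x i = fl y j) : x = y ∧ i = j := by
  simp only [fl, Prod.mk.injEq] at h
  exact ⟨by exact_mod_cast h.1, by exact_mod_cast h.2⟩

/-- rotation by an angle with cosine `c` and sine `s` -/
def rot (c s : ℝ) (v : ℝ × ℝ) : ℝ × ℝ := (v.1 * c + v.2 * s, -v.1 * s + v.2 * c)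

lemma rot_seg {c s : ℝ} {a b z : ℝ × ℝ} (h : z ∈ segment ℝ a b) :
    rot c s z ∈ segment ℝ (rot c s a) (rot c s b) := by
  obtain ⟨r, h0, h1, rfl⟩ := mem_seg_iff.1 h
  refine mem_seg_iff.2 ⟨r, h0, h1, ?_⟩
  ext
  · simp [rot]; ring
  · simp [rot]; ring

lemma rot_rot {c s : ℝ} (h : c ^ 2 + s ^ 2 = 1) (z : ℝ × ℝ) : rot c s (rot c (-s) z) = z := by
  ext
  · simp only [rot]
    linear_combination z.1 * h
  · simp only [rot]
    linear_combination z.2 * h

lemma rot_rot' {c s : ℝ} (h : c ^ 2 + s ^ 2 = 1) (z : ℝ × ℝ) : rot c (-s) (rot c s z) = z := by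
  ext
  · simp only [rot]
    linear_combination z.1 * h
  · simp only [rot]
    linear_combination z.2 * h

lemma P_rot (N : ℕ) (x y : ℤ) (i : ℕ) : P N (x + y) i =
    rot (cos (2 * π * x / N)) (sin (2 * π * x / N)) (P N y i) := by
  have h : 2 * π * ((x + y : ℤ) : ℝ) / N = 2 * π * y / N + 2 * π * x / N := by
    push_cast; ring
  ext
  · simp only [P, rot]
    rw [h, sin_add]
    ring
  · simp only [P, rot]
    rw [h, cos_add]
    ring

lemma P_congr {N : ℕ} (hN : N ≠ 0) {x y : ℤ} (h : (x : ZMod N) = y) (i : ℕ) :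
    P N x i = P N y i := by
  rw [ZMod.intCast_eq_intCast_iff] at h
  obtain ⟨m, hm⟩ := h.dvd
  have hy : y = x + N * m := by linarith
  have hN' : (N : ℝ) ≠ 0 := by exact_mod_cast hN
  have h1 : 2 * π * (y : ℝ) / N = 2 * π * x / N + m * (2 * π) := by
    rw [hy]; push_cast; field_simp
  simp only [P]
  rw [h1, sin_add_int_mul_two_pi, cos_add_int_mul_two_pi]

lemma P_dist_le {N : ℕ} (hN : N ≠ 0) (x : ℤ) (d i j : ℕ) :
    ‖P N (x + d) j - P N x i‖ ≤ d + i + j := by
  have hN' : (N : ℝ) ≠ 0 := by exact_mod_cast hN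
  have hNpos : (0 : ℝ) < N := by positivity
  set a := 2 * π * ((x + d : ℤ) : ℝ) / N with ha
  set b := 2 * π * (x : ℝ) / N with hb
  have hab : (N / (2 * π)) * |a - b| = d := by
    have : a - b = 2 * π * d / N := by rw [ha, hb]; push_cast; ring
    rw [this, abs_of_nonneg (by positivity)]
    field_simp
  have hR : 0 ≤ (N : ℝ) / (2 * π) := by positivity
  refine norm_prod_le_iff.2 ⟨?_, ?_⟩
  · simp only [P, Prod.fst_sub, Real.norm_eq_abs]
    have e1 : (N / (2 * π) + j) * sin a - (N / (2 * π) + i) * sin b =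
      (N / (2 * π)) * (sin a - sin b) + j * sin a - i * sin b := by ring
    rw [← ha, ← hb, e1]
    have h1 : |(N / (2 * π)) * (sin a - sin b)| ≤ d := by
      rw [abs_mul, abs_of_nonneg hR, ← hab]
      exact mul_le_mul_of_nonneg_left (abs_sin_sub_sin_le a b) hR
    have h2 : |(j : ℝ) * sin a| ≤ j := by
      rw [abs_mul, abs_of_nonneg (by positivity)]
      exact mul_le_of_le_one_right (by positivity) (abs_sin_le_one a)
    have h3 : |(i : ℝ) * sin b| ≤ i := by
      rw [abs_mul, abs_of_nonneg (by positivity)]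
      exact mul_le_of_le_one_right (by positivity) (abs_sin_le_one b)
    rw [abs_le] at h1 h2 h3 ⊢
    constructor <;> linarith [h1.1, h1.2, h2.1, h2.2, h3.1, h3.2]
  · simp only [P, Prod.snd_sub, Real.norm_eq_abs]
    have e1 : (N / (2 * π) + j) * cos a - (N / (2 * π) + i) * cos b =
      (N / (2 * π)) * (cos a - cos b) + j * cos a - i * cos b := by ring
    rw [← ha, ← hb, e1]
    have h1 : |(N / (2 * π)) * (cos a - cos b)| ≤ d := by
      rw [abs_mul, abs_of_nonneg hR, ← hab]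
      exact mul_le_mul_of_nonneg_left (abs_cos_sub_cos_le a b) hR
    have h2 : |(j : ℝ) * cos a| ≤ j := by
      rw [abs_mul, abs_of_nonneg (by positivity)]
      exact mul_le_of_le_one_right (by positivity) (abs_cos_le_one a)
    have h3 : |(i : ℝ) * cos b| ≤ i := by
      rw [abs_mul, abs_of_nonneg (by positivity)]
      exact mul_le_of_le_one_right (by positivity) (abs_cos_le_one b)
    rw [abs_le] at h1 h2 h3 ⊢
    constructor <;> linarith [h1.1, h1.2, h2.1, h2.2, h3.1, h3.2]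

lemma seg_dist {a b z : ℝ × ℝ} (h : z ∈ segment ℝ a b) : ‖z - a‖ ≤ ‖b - a‖ := by
  obtain ⟨r, h0, h1, rfl⟩ := mem_seg_iff.1 h
  rw [add_sub_cancel_left, norm_smul, Real.norm_eq_abs, abs_of_nonneg h0]
  exact mul_le_of_le_one_left (norm_nonneg _) h1

/-- far vertices are far -/
lemma far {N L : ℕ} (hN : 16 * L < N) {δ : ℤ} (hδ : 2 * |δ| ≤ N) {i i' : ℕ} {z : ℝ × ℝ}
    (h1 : ‖z - P N 0 i‖ ≤ L) (h2 : ‖z - P N δ i'‖ ≤ L) : |δ| ≤ 4 * L := by
  have hNpos : (0 : ℝ) < N := by
    have : 0 < N := by omega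
    exact_mod_cast this
  have hpi := pi_pos
  have hpi4 := pi_lt_four
  have hb : ‖P N δ i' - P N 0 i‖ ≤ 2 * L := by
    calc ‖P N δ i' - P N 0 i‖ = ‖(z - P N 0 i) - (z - P N δ i')‖ := by congr 1; abel
      _ ≤ ‖z - P N 0 i‖ + ‖z - P N δ i'‖ := norm_sub_le _ _
      _ ≤ 2 * L := by linarith
  obtain ⟨hb1, hb2⟩ := norm_prod_le_iff.1 hb
  simp only [P, Prod.fst_sub, Prod.snd_sub, Real.norm_eq_abs, Int.cast_zero, mul_zero,
    zero_div, sin_zero, cos_zero, sub_zero, mul_one] at hb1 hb2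
  set α := 2 * π * (δ : ℝ) / N with hα
  have hδ' : 2 * |(δ : ℝ)| ≤ N := by exact_mod_cast hδ
  have hαabs : |α| = 2 * π * |(δ : ℝ)| / N := by
    rw [hα, abs_div, abs_mul, abs_of_pos (by positivity : (0 : ℝ) < 2 * π), abs_of_pos hNpos]
  have hαpi : |α| ≤ π := by
    rw [hαabs, div_le_iff₀ hNpos]
    nlinarith
  by_cases hc : |α| ≤ π / 2
  · have h3 := mul_abs_le_abs_sin hc
    rw [abs_mul, abs_of_nonneg (by positivity : (0 : ℝ) ≤ N / (2 * π) + i')] at hb1
    have h4 : (N / (2 * π)) * (2 / π * |α|) ≤ 2 * L := by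
      calc (N / (2 * π)) * (2 / π * |α|) ≤ (N / (2 * π) + i') * |sin α| := by
            apply mul_le_mul _ h3 (by positivity) (by positivity)
            have : (0 : ℝ) ≤ i' := by positivity
            linarith
        _ ≤ 2 * L := hb1
    rw [hαabs] at h4
    have h5 : (N / (2 * π)) * (2 / π * (2 * π * |(δ : ℝ)| / N)) = 2 * |(δ : ℝ)| / π := by
      field_simp
    rw [h5, div_le_iff₀ hpi] at h4
    have hL : (0 : ℝ) ≤ L := by positivity
    have h6 : |(δ : ℝ)| ≤ 4 * L := by nlinarith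
    exact_mod_cast h6
  · exfalso
    push Not at hc
    have hcos : cos α ≤ 0 := by
      rw [← cos_abs]
      exact cos_nonpos_of_pi_div_two_le_of_le hc.le (by linarith)
    have h3 : (N / (2 * π) : ℝ) ≤ 2 * L := by
      have h4 : (N / (2 * π) + i') * cos α ≤ 0 :=
        mul_nonpos_of_nonneg_of_nonpos (by positivity) hcos
      have h5 := (abs_le.1 hb2).1
      have : (0 : ℝ) ≤ i := by positivity
      linarith
    rw [div_le_iff₀ (by positivity)] at h3
    have h4 : (16 * L : ℝ) < N := by exact_mod_cast hN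
    have hL : (0 : ℝ) ≤ L := by positivity
    nlinarith

end Pool.Agent.GeoThick
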