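import Pool.Agent.GeoThick.Near

/-!
`Gr N t` has a geometric drawing with `t` non-crossing classes, for suitable `N`.
-/

namespace Pool.Agent.GeoThick

open Real

/-- the drawing -/
noncomputable def pos (N t : ℕ) (v : ZMod N × Fin (8 * t)) : ℝ × ℝ :=
  P N v.1.valMinAbs v.2

variable {N t : ℕ}

lemma Large.ne_zero (h : Large t N) : N ≠ 0 := by
  have := h.big
  omega

lemma pos_eq (hN : N ≠ 0) (v : ZMod N × Fin (8 * t)) (x : ℤ) (hx : (x : ZMod N) = v.1) :
    pos N t v = P N x v.2 := by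
  unfold pos
  apply P_congr hN
  rw [ZMod.coe_valMinAbs, hx]

lemma exists_rep (hN : N ≠ 0) (x y : ZMod N) : ∃ δ : ℤ, ((x.valMinAbs + δ : ℤ) : ZMod N) = y ∧
    2 * |δ| ≤ N := by
  have : NeZero N := ⟨hN⟩
  refine ⟨(y - x).valMinAbs, ?_, ?_⟩
  · push_cast
    ring
  · have h := (y - x).valMinAbs_mem_Ioc
    rw [Set.mem_Ioc] at h
    rcases abs_cases (y - x).valMinAbs with ⟨h1, _⟩ | ⟨h1, _⟩ <;> rw [h1] <;> linarith [h.1, h.2]

/-- the vertex `(x, m)` in the frame of the vertex `(a, i)` -/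
lemma frame (a x : ℤ) (m : ℕ) : rot (cos (2 * π * a / N)) (-sin (2 * π * a / N)) (P N (a + x) m) =
    P N x m := by
  rw [P_rot, rot_rot' (by rw [add_comm]; exact sin_sq_add_cos_sq _)]

lemma pos_inj (h : Large t N) : Function.Injective (pos N t) := by
  intro u v huv
  have hN := h.ne_zero
  obtain ⟨δ, hδ, hδ2⟩ := exists_rep hN u.1 v.1
  have hu : pos N t u = P N (u.1.valMinAbs + 0) u.2 := by rw [add_zero]; rfl
  have hv : pos N t v = P N (u.1.valMinAbs + δ) v.2 := pos_eq hN v _ hδ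
  have e : P N δ v.2 = P N 0 u.2 := by
    rw [← frame u.1.valMinAbs δ v.2, ← frame u.1.valMinAbs 0 u.2, ← hu, ← hv, huv]
  have hfar : |δ| ≤ 4 * ((16 * t ^ 2 + 16 * t + 1 : ℕ) : ℤ) := by
    refine far h.big hδ2 (i := u.2) (i' := v.2) (z := P N 0 u.2) ?_ ?_
    · rw [sub_self, norm_zero]; positivity
    · rw [e, sub_self, norm_zero]; positivity
  have h3 := mt (h.inj u.2 v.2 u.2.2 v.2.2 δ hfar) (not_not.2 e)
  rw [not_not] at h3
  obtain ⟨h4, h5⟩ := h3
  rw [h4, add_zero, ZMod.coe_valMinAbs] at hδ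
  exact Prod.ext hδ (Fin.ext h5.symm)

lemma bound_L {k i d j : ℕ} (hk : k < t) (h : Ty t k i d j) :
    ((d : ℝ) + i + j) ≤ ((16 * t ^ 2 + 16 * t + 1 : ℕ) : ℝ) := by
  have h1 := h.d_le hk
  have h2 := h.lt
  have : d + i + j ≤ 16 * t ^ 2 + 16 * t + 1 := by omega
  exact_mod_cast this

/-- the main statement about two edges of the same class -/
lemma good_pair (h : Large t N) {k : ℕ} (hk : k < t) {u v x y : ZMod N × Fin (8 * t)}
    (huv : E N t k u v) (hxy : E N t k x y) (hne : s(u, v) ≠ s(x, y)) :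
    ¬ Cross (pos N t) u v x y := by
  rintro ⟨z, hz, hz', hcr⟩
  apply hcr
  have hN := h.ne_zero
  obtain ⟨d, hd, hv⟩ := huv
  obtain ⟨d', hd', hy⟩ := hxy
  obtain ⟨δ, hδ, hδ2⟩ := exists_rep hN u.1 x.1
  set a := u.1.valMinAbs with ha
  have hau : (a : ZMod N) = u.1 := ZMod.coe_valMinAbs _
  have pu : pos N t u = P N (a + 0) u.2 := by rw [add_zero]; rfl
  have pv : pos N t v = P N (a + d) v.2 := pos_eq hN v _ (by push_cast; rw [hau, hv])
  have px : pos N t x = P N (a + δ) x.2 := pos_eq hN x _ hδ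
  have py : pos N t y = P N (a + (δ + d')) y.2 := pos_eq hN y _ (by
    rw [← add_assoc, Int.cast_add, hδ, hy]; simp)
  set c := cos (2 * π * a / N)
  set s := sin (2 * π * a / N)
  have hcs : c ^ 2 + s ^ 2 = 1 := by rw [add_comm]; exact sin_sq_add_cos_sq _
  have fu : rot c (-s) (pos N t u) = P N 0 u.2 := by rw [pu]; exact frame a 0 _
  have fv : rot c (-s) (pos N t v) = P N d v.2 := by rw [pv]; exact frame a d _
  have fx : rot c (-s) (pos N t x) = P N δ x.2 := by rw [px]; exact frame a δ _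
  have fy : rot c (-s) (pos N t y) = P N (δ + d') y.2 := by rw [py]; exact frame a (δ + d') _
  have w1 := rot_seg (c := c) (s := -s) hz
  have w2 := rot_seg (c := c) (s := -s) hz'
  rw [fu, fv] at w1
  rw [fx, fy] at w2
  have hfar : |δ| ≤ 4 * ((16 * t ^ 2 + 16 * t + 1 : ℕ) : ℤ) := by
    refine far h.big hδ2 (i := u.2) (i' := x.2) (z := rot c (-s) z) ?_ ?_
    · refine (seg_dist w1).trans ?_
      have := P_dist_le hN 0 d u.2 v.2
      rw [zero_add] at this
      exact this.trans (bound_L hk hd)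
    · refine (seg_dist w2).trans ?_
      exact (P_dist_le hN δ d' x.2 y.2).trans (bound_L hk hd')
  have key := h.edges k hk u.2 d v.2 x.2 d' y.2 δ hfar hd hd' (by
    rintro ⟨h1, h2, h3, h4⟩
    apply hne
    have hux : u = x := by
      refine Prod.ext ?_ (Fin.ext h2)
      rw [← hδ, h1, add_zero, hau]
    have hvy : v = y := by
      refine Prod.ext ?_ (Fin.ext h4)
      rw [hv, hy, hux, h3]
    rw [hux, hvy]) _ w1 w2
  have inj : ∀ w : ZMod N × Fin (8 * t), rot c (-s) z = rot c (-s) (pos N t w) → z = pos N t w := by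
    intro w hw
    have := congrArg (rot c s) hw
    rwa [rot_rot hcs, rot_rot hcs] at this
  rw [← fu, ← fv, ← fx, ← fy] at key
  obtain ⟨k1, k2⟩ := key
  have m1 : ∃ w, (w = u ∨ w = v) ∧ z = pos N t w := by
    rcases k1 with k1 | k1
    · exact ⟨u, Or.inl rfl, inj _ k1⟩
    · exact ⟨v, Or.inr rfl, inj _ k1⟩
  have m2 : ∃ w, (w = x ∨ w = y) ∧ z = pos N t w := by
    rcases k2 with k2 | k2
    · exact ⟨x, Or.inl rfl, inj _ k2⟩
    · exact ⟨y, Or.inr rfl, inj _ k2⟩
  obtain ⟨w, hw, hzw⟩ := m1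
  obtain ⟨w', hw', hzw'⟩ := m2
  have : w = w' := pos_inj h (hzw.symm.trans hzw')
  subst this
  exact ⟨w, hw, hw', hzw⟩

lemma good_vertex (h : Large t N) {k : ℕ} (hk : k < t) {u v w : ZMod N × Fin (8 * t)}
    (huv : E N t k u v) (hw : pos N t w ∈ segment ℝ (pos N t u) (pos N t v)) : w = u ∨ w = v := by
  have hN := h.ne_zero
  obtain ⟨d, hd, hv⟩ := huv
  obtain ⟨δ, hδ, hδ2⟩ := exists_rep hN u.1 w.1
  set a := u.1.valMinAbs with ha
  have hau : (a : ZMod N) = u.1 := ZMod.coe_valMinAbs _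
  have pu : pos N t u = P N (a + 0) u.2 := by rw [add_zero]; rfl
  have pv : pos N t v = P N (a + d) v.2 := pos_eq hN v _ (by push_cast; rw [hau, hv])
  have px : pos N t w = P N (a + δ) w.2 := pos_eq hN w _ hδ
  set c := cos (2 * π * a / N)
  set s := sin (2 * π * a / N)
  have fu : rot c (-s) (pos N t u) = P N 0 u.2 := by rw [pu]; exact frame a 0 _
  have fv : rot c (-s) (pos N t v) = P N d v.2 := by rw [pv]; exact frame a d _
  have fx : rot c (-s) (pos N t w) = P N δ w.2 := by rw [px]; exact frame a δ _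
  have w1 := rot_seg (c := c) (s := -s) hw
  rw [fu, fv, fx] at w1
  have hfar : |δ| ≤ 4 * ((16 * t ^ 2 + 16 * t + 1 : ℕ) : ℤ) := by
    refine far h.big hδ2 (i := u.2) (i' := w.2) (z := P N δ w.2) ?_ ?_
    · refine (seg_dist w1).trans ?_
      have := P_dist_le hN 0 d u.2 v.2
      rw [zero_add] at this
      exact this.trans (bound_L hk hd)
    · rw [sub_self, norm_zero]; positivity
  by_contra hcon
  push Not at hcon
  refine h.vertex k hk u.2 d v.2 w.2 w.2.2 δ hfar hd ?_ ?_ w1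
  · rintro ⟨h1, h2⟩
    apply hcon.1
    refine Prod.ext ?_ (Fin.ext h2)
    rw [← hδ, h1, add_zero, hau]
  · rintro ⟨h1, h2⟩
    apply hcon.2
    refine Prod.ext ?_ (Fin.ext h2)
    rw [← hδ, h1, hv]
    push_cast
    rw [hau]

lemma cross_swap {V : Type*} {p : V → ℝ × ℝ} {u v x y : V} (h : Cross p u v x y) :
    Cross p v u x y := by
  obtain ⟨z, h1, h2, h3⟩ := h
  refine ⟨z, by rwa [segment_symm], h2, ?_⟩
  rintro ⟨w, h4, h5, h6⟩
  exact h3 ⟨w, h4.symm, h5, h6⟩

lemma cross_swap' {V : Type*} {p : V → ℝ × ℝ} {u v x y : V} (h : Cross p u v x y) :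
    Cross p u v y x := by
  obtain ⟨z, h1, h2, h3⟩ := h
  refine ⟨z, h1, by rwa [segment_symm], ?_⟩
  rintro ⟨w, h4, h5, h6⟩
  exact h3 ⟨w, h4, h5.symm, h6⟩

lemma isDrawing (h : Large t N) : IsDrawing (Gr N t) (pos N t) := by
  refine ⟨pos_inj h, ?_⟩
  rintro u v w ⟨-, k, hk, huv | huv⟩ hw
  · exact good_vertex h hk huv hw
  · exact (good_vertex h hk huv (by rwa [segment_symm])).symm

open Classical in
theorem geomThicknessLE_Gr (h : Large t N) : GeomThicknessLE (Gr N t) t := by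
  let c : Sym2 (ZMod N × Fin (8 * t)) → ℕ := fun e =>
    if hh : ∃ k < t, ∃ u v, e = s(u, v) ∧ E N t k u v then hh.choose else 0
  have hc : ∀ e ∈ (Gr N t).edgeSet, c e < t ∧ ∃ u v, e = s(u, v) ∧ E N t (c e) u v := by
    intro e he
    have hh : ∃ k < t, ∃ u v, e = s(u, v) ∧ E N t k u v := by
      induction e using Sym2.ind with
      | _ u v =>
        rw [SimpleGraph.mem_edgeSet] at he
        obtain ⟨-, k, hk, h1 | h1⟩ := he
        · exact ⟨k, hk, u, v, rfl, h1⟩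
        · exact ⟨k, hk, v, u, Sym2.eq_swap, h1⟩
    have hce : c e = hh.choose := dif_pos hh
    rw [hce]
    exact hh.choose_spec
  refine ⟨pos N t, isDrawing h, c, fun e he => (hc e he).1, ?_⟩
  intro u v x y huv hxy hne hcc hcross
  obtain ⟨hk, u', v', e1, he1⟩ := hc _ ((SimpleGraph.mem_edgeSet _).2 huv)
  obtain ⟨hk', x', y', e2, he2⟩ := hc _ ((SimpleGraph.mem_edgeSet _).2 hxy)
  rw [← hcc] at he2
  have hne' : s(u', v') ≠ s(x', y') := by rw [← e1, ← e2]; exact hne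
  have g := good_pair h hk he1 he2 hne'
  apply g
  rw [Sym2.eq_iff] at e1 e2
  rcases e1 with ⟨rfl, rfl⟩ | ⟨rfl, rfl⟩
  · rcases e2 with ⟨rfl, rfl⟩ | ⟨rfl, rfl⟩
    · exact hcross
    · exact cross_swap' hcross
  · rcases e2 with ⟨rfl, rfl⟩ | ⟨rfl, rfl⟩
    · exact cross_swap hcross
    · exact cross_swap (cross_swap' hcross)

end Pool.Agent.GeoThick
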