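import Pool.Agent.GeoThick.Upper
import Pool.Agent.GeoThick.Draw

/-!
Assembly.
-/

namespace Pool.Agent.GeoThick

open Classical in
/-- counting bound -/
theorem degree_le {V : Type*} [Finite V] [Nonempty V] (G : SimpleGraph V) {k s : ℕ}
    (hreg : ∀ v, (G.neighborSet v).ncard = k) (h : GeomThicknessLE G s) :
    k ≤ 6 * s ∧ (1 ≤ s → k < 6 * s) := by
  have := Fintype.ofFinite V
  obtain ⟨p, hp, c, hc, hcross⟩ := h
  let H : ℕ → SimpleGraph V := fun r =>
    { Adj := fun u v => G.Adj u v ∧ c s(u, v) = r
      symm := ⟨fun u v hh => ⟨hh.1.symm, by rw [Sym2.eq_swap]; exact hh.2⟩⟩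
      loopless := ⟨fun u hh => G.loopless.irrefl u hh.1⟩ }
  have hH : ∀ r, (H r).edgeFinset.card < 3 * Fintype.card V := by
    intro r
    refine card_edges_lt (H r) p ⟨hp.inj, fun u v w huv => hp.not_mem u v w huv.1⟩ ?_
    intro u v x y huv hxy hne
    exact hcross u v x y huv.1 hxy.1 hne (huv.2.trans hxy.2.symm)
  have hsub : G.edgeFinset ⊆ (Finset.range s).biUnion (fun r => (H r).edgeFinset) := by
    intro e he
    rw [SimpleGraph.mem_edgeFinset] at he
    rw [Finset.mem_biUnion]
    refine ⟨c e, Finset.mem_range.2 (hc e he), ?_⟩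
    rw [SimpleGraph.mem_edgeFinset]
    induction e using Sym2.ind with
    | _ u v => exact ⟨he, rfl⟩
  have hcard : G.edgeFinset.card ≤ s * (3 * Fintype.card V - 1) := by
    calc G.edgeFinset.card ≤ ((Finset.range s).biUnion (fun r => (H r).edgeFinset)).card :=
          Finset.card_le_card hsub
      _ ≤ ∑ r ∈ Finset.range s, (H r).edgeFinset.card := Finset.card_biUnion_le
      _ ≤ ∑ r ∈ Finset.range s, (3 * Fintype.card V - 1) := by
          apply Finset.sum_le_sum
          intro r _
          have := hH r
          omega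
      _ = s * (3 * Fintype.card V - 1) := by simp
  have hdeg : ∀ v, G.degree v = k := by
    intro v
    rw [← hreg v, Set.ncard_eq_toFinset_card', ← SimpleGraph.card_neighborFinset_eq_degree]
    rfl
  have hsum := G.sum_degrees_eq_twice_card_edges
  simp only [hdeg, Finset.sum_const, Finset.card_univ, smul_eq_mul] at hsum
  have hpos : 0 < Fintype.card V := Fintype.card_pos
  set n := Fintype.card V with hn
  obtain ⟨m, hm⟩ : ∃ m, n = m + 1 := ⟨n - 1, by omega⟩
  have h3 : s * (3 * n - 1) + s = s * (3 * n) := by
    rw [hm]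
    have : 3 * (m + 1) - 1 = 3 * m + 2 := by omega
    rw [this]
    ring
  have h4 : n * k + 2 * s ≤ n * (6 * s) := by
    have : n * k ≤ 2 * (s * (3 * n - 1)) := by
      rw [hsum]; omega
    nlinarith
  constructor
  · exact Nat.le_of_mul_le_mul_left (by omega) hpos
  · intro hs
    exact Nat.lt_of_mul_lt_mul_left (a := n) (by omega)

lemma geomThicknessLE_comap {V W : Type*} (G : SimpleGraph V) (e : W ≃ V) {t : ℕ}
    (h : GeomThicknessLE G t) : GeomThicknessLE (G.comap e) t := by
  obtain ⟨p, hp, c, hc, hcross⟩ := h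
  refine ⟨p ∘ e, ⟨hp.inj.comp e.injective, ?_⟩, fun f => c (f.map e), ?_, ?_⟩
  · intro u v w huv hw
    rcases hp.not_mem _ _ (e w) huv hw with h | h
    · exact Or.inl (e.injective h)
    · exact Or.inr (e.injective h)
  · intro f hf
    apply hc
    induction f using Sym2.ind with
    | _ u v => exact hf
  · intro u v x y huv hxy hne hcc hcr
    refine hcross (e u) (e v) (e x) (e y) huv hxy ?_ hcc ?_
    · intro hh
      apply hne
      have : Sym2.map e s(u, v) = Sym2.map e s(x, y) := hh
      exact Sym2.map.injective e.injective this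
    · obtain ⟨z, h1, h2, h3⟩ := hcr
      refine ⟨z, h1, h2, ?_⟩
      rintro ⟨w, h4, h5, h6⟩
      apply h3
      refine ⟨e.symm w, ?_, ?_, by simpa using h6⟩
      · rcases h4 with rfl | rfl
        · left; simp
        · right; simp
      · rcases h5 with rfl | rfl
        · left; simp
        · right; simp

lemma ncard_neighborSet_comap {V W : Type*} (G : SimpleGraph V) (e : W ≃ V) (w : W) :
    ((G.comap e).neighborSet w).ncard = (G.neighborSet (e w)).ncard := by
  have : G.neighborSet (e w) = e '' ((G.comap e).neighborSet w) := by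
    ext v
    constructor
    · intro hv
      refine ⟨e.symm v, ?_, by simp⟩
      show G.Adj (e w) (e (e.symm v))
      rw [e.apply_symm_apply]
      exact hv
    · rintro ⟨x, hx, rfl⟩
      exact hx
  rw [this, Set.ncard_image_of_injective _ e.injective]

theorem main_of_degree
    (hdeg : ∀ (N t : ℕ), 1 ≤ t → 8 * t < N → ∀ v : ZMod N × Fin (8 * t),
      ((Gr N t).neighborSet v).ncard = 6 * t - 1) :
    ∀ t : ℕ, 1 ≤ t → IsGreatest (degrees t) (6 * t - 1) := by
  intro t ht
  constructor
  · obtain ⟨N, hN⟩ := exists_large t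
    have hN0 : NeZero N := ⟨hN.ne_zero⟩
    have h8 : 8 * t < N := by
      have := hN.big
      nlinarith
    let e : Fin (Fintype.card (ZMod N × Fin (8 * t))) ≃ ZMod N × Fin (8 * t) :=
      (Fintype.equivFin _).symm
    have hne : Nonempty (Fin (Fintype.card (ZMod N × Fin (8 * t)))) :=
      ⟨e.symm (0, ⟨0, by omega⟩)⟩
    have hreg : ∀ v, (((Gr N t).comap e).neighborSet v).ncard = 6 * t - 1 := by
      intro v
      rw [ncard_neighborSet_comap]
      exact hdeg N t ht h8 _
    refine ⟨_, (Gr N t).comap e, hreg, ?_⟩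
    have hle : GeomThicknessLE ((Gr N t).comap e) t :=
      geomThicknessLE_comap _ e (geomThicknessLE_Gr hN)
    apply le_antisymm
    · exact Nat.sInf_le hle
    · by_contra hlt
      push Not at hlt
      have hmem : GeomThicknessLE ((Gr N t).comap e) (geomThickness ((Gr N t).comap e)) :=
        Nat.sInf_mem (s := {r : ℕ | GeomThicknessLE ((Gr N t).comap e) r}) ⟨t, hle⟩
      have := (degree_le _ hreg hmem).1
      omega
  · rintro k ⟨n, G, hreg, hth⟩
    have hne : ({s : ℕ | GeomThicknessLE G s}).Nonempty := by
      by_contra hcon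
      rw [Set.not_nonempty_iff_eq_empty] at hcon
      unfold geomThickness at hth
      rw [hcon, Nat.sInf_empty] at hth
      omega
    have hmem : GeomThicknessLE G (geomThickness G) := Nat.sInf_mem hne
    rw [hth] at hmem
    have hn : Nonempty (Fin n) := by
      by_contra hcon
      rw [not_nonempty_iff] at hcon
      have h0 : GeomThicknessLE G 0 := by
        refine ⟨fun _ => 0, ⟨fun u => isEmptyElim u, fun u => isEmptyElim u⟩, fun _ => 0, ?_,
          fun u => isEmptyElim u⟩
        intro f
        induction f using Sym2.ind with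
        | _ u v => exact isEmptyElim u
      have : geomThickness G ≤ 0 := Nat.sInf_le h0
      omega
    have := (degree_le G hreg hmem).2 ht
    omega

end Pool.Agent.GeoThick
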