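import Pool.Agent.GeoThick.Defs

/-!
The `(6t-1)`-regular graph: vertices `ZMod N × Fin (8 * t)`, `t` classes of edges.
-/

namespace Pool.Agent.GeoThick

/-- the staircase of class `0` -/
def Chain0 (t i j : ℕ) : Prop :=
  (i = 0 ∧ j < 3 * t) ∨ (i = 1 ∧ 3 * t ≤ j ∧ j ≤ 4 * t) ∨
  (2 ≤ i ∧ i + 1 ≤ 4 * t ∧ (j + 2 = 4 * t + i ∨ j + 1 = 4 * t + i)) ∨
  (4 * t ≤ i ∧ i < 5 * t ∧ j + 2 = 8 * t) ∨ (5 * t ≤ i ∧ i < 8 * t ∧ j + 1 = 8 * t)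

/-- the chain of class `k`: edges from column `x'` to column `x'+1` in sheared coordinates -/
def Chain (t k i j : ℕ) : Prop :=
  i < 8 * t ∧ j < 8 * t ∧ ((k = 0 ∧ Chain0 t i j) ∨ (k ≠ 0 ∧ (j = i + 1 ∨ j = i + 2)))

/-- the directed edge types of class `k`: from row `i`, displacement `d`, to row `j`. -/
def Ty (t k i d j : ℕ) : Prop :=
  (d = 2 * k ∧ j = i + 1 ∧ j < 8 * t) ∨ (Chain t k i j ∧ d + 2 * k * i = 1 + 2 * k * j)

/-- directed edges of class `k` -/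
def E (N t k : ℕ) (u v : ZMod N × Fin (8 * t)) : Prop :=
  ∃ d : ℕ, Ty t k u.2 d v.2 ∧ v.1 = u.1 + d

/-- the graph -/
def Gr (N t : ℕ) : SimpleGraph (ZMod N × Fin (8 * t)) where
  Adj u v := u ≠ v ∧ ∃ k < t, E N t k u v ∨ E N t k v u
  symm := ⟨by
    rintro u v ⟨h, k, hk, h'⟩
    exact ⟨h.symm, k, hk, h'.symm⟩⟩
  loopless := ⟨fun u h => h.1 rfl⟩

/-! degree count, to be proved in `Pool.Agent.GeoThick.Degree`:

theorem degree_Gr (N t : ℕ) (ht : 1 ≤ t) (hN : 8 * t < N) (v : ZMod N × Fin (8 * t)) :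
    ((Gr N t).neighborSet v).ncard = 6 * t - 1
-/

end Pool.Agent.GeoThick
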