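import Mathlib

/-!
Definitions for the geometric thickness of a finite graph (problem MP_10c741_co).
-/

namespace Pool.Agent.GeoThick

open SimpleGraph

/-- A geometric drawing of `G`: the vertices are placed at distinct points of the plane, and no
straight segment joining two adjacent vertices contains a third vertex. -/
structure IsDrawing {V : Type*} (G : SimpleGraph V) (p : V → ℝ × ℝ) : Prop where
  inj : Function.Injective p
  not_mem : ∀ u v w : V, G.Adj u v → p w ∈ segment ℝ (p u) (p v) → w = u ∨ w = v

/-- The segments `uv` and `xy` meet at a point which is not (the position of) a shared endpoint. -/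
def Cross {V : Type*} (p : V → ℝ × ℝ) (u v x y : V) : Prop :=
  ∃ z : ℝ × ℝ, z ∈ segment ℝ (p u) (p v) ∧ z ∈ segment ℝ (p x) (p y) ∧
    ¬ ∃ w : V, (w = u ∨ w = v) ∧ (w = x ∨ w = y) ∧ z = p w

/-- A family of edges (given as a graph `H`) is non-crossing in the drawing `p`. -/
def NonCrossing {V : Type*} (H : SimpleGraph V) (p : V → ℝ × ℝ) : Prop :=
  ∀ u v x y : V, H.Adj u v → H.Adj x y → s(u, v) ≠ s(x, y) → ¬ Cross p u v x y

/-- `G` has a geometric drawing whose edges can be partitioned into `t` classes
(`c e < t` is the class of the edge `e`) such that no two distinct edges of the same class cross. -/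
def GeomThicknessLE {V : Type*} (G : SimpleGraph V) (t : ℕ) : Prop :=
  ∃ p : V → ℝ × ℝ, IsDrawing G p ∧ ∃ c : Sym2 V → ℕ, (∀ e ∈ G.edgeSet, c e < t) ∧
    ∀ u v x y : V, G.Adj u v → G.Adj x y → s(u, v) ≠ s(x, y) → c s(u, v) = c s(x, y) →
      ¬ Cross p u v x y

/-- The geometric thickness of `G`: the least `t` such that some geometric drawing of `G` admits
a partition of its edges into `t` classes in which no two edges of the same class cross. -/
noncomputable def geomThickness {V : Type*} (G : SimpleGraph V) : ℕ :=
  sInf {t : ℕ | GeomThicknessLE G t}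

/-- the set of all `k` such that there is a finite `k`-regular graph of geometric thickness `t`. -/
def degrees (t : ℕ) : Set ℕ :=
  {k : ℕ | ∃ (n : ℕ) (G : SimpleGraph (Fin n)),
    (∀ v, (G.neighborSet v).ncard = k) ∧ geomThickness G = t}

/-! Target of the whole project: `∀ t ≥ 1, IsGreatest (degrees t) (6 * t - 1)`. -/

/-! Module E (upper bound), to be proved in `Pool.Agent.GeoThick.Upper`:

theorem card_edges_lt {V : Type*} [Fintype V] [Nonempty V] (H : SimpleGraph V)
    [DecidableRel H.Adj] (p : V → ℝ × ℝ) (hp : IsDrawing H p) (hc : NonCrossing H p) :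
    H.edgeFinset.card < 3 * Fintype.card V
-/

end Pool.Agent.GeoThick
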