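import Pool.Agent.GeoThick.Near

/-!
Degree count.
-/

namespace Pool.Agent.GeoThick

open Finset

/-- outgoing types of row `i` of the staircase: an interval -/
def outC (t i : ℕ) : Finset ℕ :=
  if i = 0 then Finset.range (3 * t) else
  if i = 1 then Finset.Icc (3 * t) (4 * t) else
  if i < 4 * t then Finset.Icc (4 * t + i - 2) (4 * t + i - 1) else
  if i < 5 * t then {8 * t - 2} else {8 * t - 1}

/-- incoming types of row `j` of the staircase: an interval -/
def inC (t j : ℕ) : Finset ℕ :=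
  if j < 3 * t then {0} else
  if j < 4 * t then {1} else
  if j + 2 < 8 * t then Finset.Icc (j - 4 * t + 1) (j - 4 * t + 2) else
  if j + 2 = 8 * t then Finset.Icc (4 * t - 1) (5 * t - 1) else Finset.Ico (5 * t) (8 * t)

lemma mem_outC {t i j : ℕ} (ht : 1 ≤ t) (hi : i < 8 * t) :
    j ∈ outC t i ↔ j < 8 * t ∧ Chain0 t i j := by
  unfold outC Chain0
  split_ifs <;> simp only [mem_range, mem_Icc, mem_singleton] <;> omega

lemma mem_inC {t i j : ℕ} (ht : 1 ≤ t) (hj : j < 8 * t) :
    i ∈ inC t j ↔ i < 8 * t ∧ Chain0 t i j := by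
  unfold inC Chain0
  split_ifs <;> simp only [mem_Icc, mem_Ico, mem_singleton] <;> omega

lemma card_outC_add_inC {t i : ℕ} (ht : 1 ≤ t) (hi : i < 8 * t) :
    ((if i + 1 < 8 * t then 2 * t - 1 else 0) + (if i + 2 < 8 * t then t - 1 else 0) +
      (outC t i).card) +
    ((if 1 ≤ i then 2 * t - 1 else 0) + (if 2 ≤ i then t - 1 else 0) +
      (inC t i).card) = 6 * t - 1 := by
  unfold outC inC
  split_ifs <;> simp only [card_range, Nat.card_Icc, Nat.card_Ico, card_singleton] <;> omega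

/-- outgoing types -/
def Of (t i : ℕ) : Finset (ℕ × ℕ) :=
  (if i + 1 < 8 * t then ((range (2 * t)).erase 1).image (fun d => (d, i + 1)) else ∅) ∪
  (if i + 2 < 8 * t then (Ico 1 t).image (fun k => (4 * k + 1, i + 2)) else ∅) ∪
  (outC t i).image (fun j => (1, j))

/-- incoming types -/
def If (t i : ℕ) : Finset (ℕ × ℕ) :=
  (if 1 ≤ i then ((range (2 * t)).erase 1).image (fun d => (d, i - 1)) else ∅) ∪
  (if 2 ≤ i then (Ico 1 t).image (fun k => (4 * k + 1, i - 2)) else ∅) ∪
  (inC t i).image (fun j => (1, j))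

lemma exists_Ty_iff {t i d j : ℕ} (ht : 1 ≤ t) : (∃ k < t, Ty t k i d j) ↔
    i < 8 * t ∧ j < 8 * t ∧ ((j = i + 1 ∧ d < 2 * t ∧ d ≠ 1) ∨
      (j = i + 2 ∧ ∃ k, 1 ≤ k ∧ k < t ∧ d = 4 * k + 1) ∨ (d = 1 ∧ Chain0 t i j)) := by
  constructor
  · rintro ⟨k, hk, h⟩
    refine ⟨h.lt.1, h.lt.2, ?_⟩
    rcases h with ⟨rfl, h2, h3⟩ | ⟨⟨h1, h2, h3⟩, h4⟩
    · left; omega
    · rcases h3 with ⟨rfl, h3⟩ | ⟨hk0, h3⟩
      · right; right
        exact ⟨by omega, h3⟩
      · rcases h3 with rfl | rfl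
        · left
          have : 2 * k * (i + 1) = 2 * k * i + 2 * k := by ring
          omega
        · right; left
          have : 2 * k * (i + 2) = 2 * k * i + 4 * k := by ring
          exact ⟨rfl, k, by omega, hk, by omega⟩
  · rintro ⟨hi, hj, h | h | h⟩
    · obtain ⟨rfl, h1, h2⟩ := h
      rcases Nat.even_or_odd' d with ⟨k, hk | hk⟩
      · exact ⟨k, by omega, Or.inl ⟨hk, rfl, hj⟩⟩
      · refine ⟨k, by omega, Or.inr ⟨⟨hi, hj, Or.inr ⟨by omega, Or.inl rfl⟩⟩, ?_⟩⟩
        have : 2 * k * (i + 1) = 2 * k * i + 2 * k := by ring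
        omega
    · obtain ⟨rfl, k, h1, h2, h3⟩ := h
      refine ⟨k, h2, Or.inr ⟨⟨hi, hj, Or.inr ⟨by omega, Or.inr rfl⟩⟩, ?_⟩⟩
      have : 2 * k * (i + 2) = 2 * k * i + 4 * k := by ring
      omega
    · obtain ⟨rfl, h1⟩ := h
      exact ⟨0, ht, Or.inr ⟨⟨hi, hj, Or.inl ⟨rfl, h1⟩⟩, by simp⟩⟩

lemma mem_Of {t i d j : ℕ} (ht : 1 ≤ t) (hi : i < 8 * t) :
    (d, j) ∈ Of t i ↔ ∃ k < t, Ty t k i d j := by
  rw [exists_Ty_iff ht, Of, mem_union, mem_union]
  constructor
  · rintro ((h | h) | h)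
    · split_ifs at h with h1
      · simp only [mem_image, mem_erase, mem_range, Prod.mk.injEq] at h
        obtain ⟨a, ⟨h2, h3⟩, rfl, rfl⟩ := h
        exact ⟨hi, h1, Or.inl ⟨rfl, h3, h2⟩⟩
      · simp at h
    · split_ifs at h with h1
      · simp only [mem_image, mem_Ico, Prod.mk.injEq] at h
        obtain ⟨a, ⟨h2, h3⟩, rfl, rfl⟩ := h
        exact ⟨hi, h1, Or.inr (Or.inl ⟨rfl, a, h2, h3, rfl⟩)⟩
      · simp at h
    · simp only [mem_image, Prod.mk.injEq] at h
      obtain ⟨a, h2, rfl, rfl⟩ := h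
      rw [mem_outC ht hi] at h2
      exact ⟨hi, h2.1, Or.inr (Or.inr ⟨rfl, h2.2⟩)⟩
  · rintro ⟨-, hj, h | h | h⟩
    · obtain ⟨rfl, h1, h2⟩ := h
      left; left
      rw [if_pos hj]
      simp only [mem_image, mem_erase, mem_range, Prod.mk.injEq]
      exact ⟨d, ⟨h2, h1⟩, rfl, trivial⟩
    · obtain ⟨rfl, k, h1, h2, h3⟩ := h
      left; right
      rw [if_pos hj]
      simp only [mem_image, mem_Ico, Prod.mk.injEq]
      exact ⟨k, ⟨h1, h2⟩, h3.symm, trivial⟩
    · obtain ⟨rfl, h1⟩ := h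
      right
      simp only [mem_image, Prod.mk.injEq]
      exact ⟨j, (mem_outC ht hi).2 ⟨hj, h1⟩, trivial, rfl⟩

lemma mem_If {t i d j : ℕ} (ht : 1 ≤ t) (hi : i < 8 * t) :
    (d, j) ∈ If t i ↔ ∃ k < t, Ty t k j d i := by
  rw [exists_Ty_iff ht, If, mem_union, mem_union]
  constructor
  · rintro ((h | h) | h)
    · split_ifs at h with h1
      · simp only [mem_image, mem_erase, mem_range, Prod.mk.injEq] at h
        obtain ⟨a, ⟨h2, h3⟩, rfl, rfl⟩ := h
        exact ⟨by omega, hi, Or.inl ⟨by omega, h3, h2⟩⟩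
      · simp at h
    · split_ifs at h with h1
      · simp only [mem_image, mem_Ico, Prod.mk.injEq] at h
        obtain ⟨a, ⟨h2, h3⟩, rfl, rfl⟩ := h
        exact ⟨by omega, hi, Or.inr (Or.inl ⟨by omega, a, h2, h3, rfl⟩)⟩
      · simp at h
    · simp only [mem_image, Prod.mk.injEq] at h
      obtain ⟨a, h2, rfl, rfl⟩ := h
      rw [mem_inC ht hi] at h2
      exact ⟨h2.1, hi, Or.inr (Or.inr ⟨rfl, h2.2⟩)⟩
  · rintro ⟨hj, -, h | h | h⟩
    · obtain ⟨h0, h1, h2⟩ := h
      left; left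
      rw [if_pos (by omega)]
      simp only [mem_image, mem_erase, mem_range, Prod.mk.injEq]
      exact ⟨d, ⟨h2, h1⟩, rfl, by omega⟩
    · obtain ⟨h0, k, h1, h2, h3⟩ := h
      left; right
      rw [if_pos (by omega)]
      simp only [mem_image, mem_Ico, Prod.mk.injEq]
      exact ⟨k, ⟨h1, h2⟩, h3.symm, by omega⟩
    · obtain ⟨rfl, h1⟩ := h
      right
      simp only [mem_image, Prod.mk.injEq]
      exact ⟨j, (mem_inC ht hi).2 ⟨hj, h1⟩, trivial, rfl⟩

lemma card_Of {t i : ℕ} (ht : 1 ≤ t) : (Of t i).card =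
    (if i + 1 < 8 * t then 2 * t - 1 else 0) + (if i + 2 < 8 * t then t - 1 else 0) +
      (outC t i).card := by
  unfold Of
  rw [card_union_of_disjoint, card_union_of_disjoint]
  · congr 1
    · congr 1
      · split_ifs
        · rw [card_image_of_injective, card_erase_of_mem, card_range]
          · rw [mem_range]; omega
          · intro a b hab; simpa using hab
        · rfl
      · split_ifs
        · rw [card_image_of_injective, Nat.card_Ico]
          intro a b hab
          simp only [Prod.mk.injEq] at hab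
          omega
        · rfl
    · rw [card_image_of_injective]
      intro a b hab; simpa using hab
  · rw [Finset.disjoint_left]
    rintro ⟨d, j⟩ h h'
    split_ifs at h <;> split_ifs at h' <;> simp at h h'
    omega
  · rw [Finset.disjoint_left]
    rintro ⟨d, j⟩ h h'
    simp only [mem_union] at h
    simp only [mem_image, Prod.mk.injEq] at h'
    obtain ⟨a, -, rfl, rfl⟩ := h'
    rcases h with h | h
    · split_ifs at h <;> simp at h
    · split_ifs at h <;> simp at h

lemma card_If {t i : ℕ} (ht : 1 ≤ t) : (If t i).card =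
    (if 1 ≤ i then 2 * t - 1 else 0) + (if 2 ≤ i then t - 1 else 0) +
      (inC t i).card := by
  unfold If
  rw [card_union_of_disjoint, card_union_of_disjoint]
  · congr 1
    · congr 1
      · split_ifs
        · rw [card_image_of_injective, card_erase_of_mem, card_range]
          · rw [mem_range]; omega
          · intro a b hab; simpa using hab
        · rfl
      · split_ifs
        · rw [card_image_of_injective, Nat.card_Ico]
          intro a b hab
          simp only [Prod.mk.injEq] at hab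
          omega
        · rfl
    · rw [card_image_of_injective]
      intro a b hab; simpa using hab
  · rw [Finset.disjoint_left]
    rintro ⟨d, j⟩ h h'
    split_ifs at h <;> split_ifs at h' <;> simp at h h'
    omega
  · rw [Finset.disjoint_left]
    rintro ⟨d, j⟩ h h'
    simp only [mem_union] at h
    simp only [mem_image, Prod.mk.injEq] at h'
    obtain ⟨a, -, rfl, rfl⟩ := h'
    rcases h with h | h
    · split_ifs at h <;> simp at h
    · split_ifs at h <;> simp at h

lemma Ty.d_lt {t k i d j : ℕ} (hk : k < t) (h : Ty t k i d j) : d < 4 * t ∧ (i = j → d = 1) := by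
  have h1 := (exists_Ty_iff (by omega)).1 ⟨k, hk, h⟩
  obtain ⟨-, -, h1 | h1 | h1⟩ := h1
  · omega
  · obtain ⟨h2, k', h3, h4, h5⟩ := h1
    omega
  · omega

lemma natCast_inj_of_lt {N a b : ℕ} (ha : a < N) (hb : b < N) (h : (a : ZMod N) = b) : a = b := by
  rw [ZMod.natCast_eq_natCast_iff] at h
  exact Nat.ModEq.eq_of_lt_of_lt h ha hb

/-- the `(6 t - 1)`-regularity -/
theorem degree_Gr (N t : ℕ) (ht : 1 ≤ t) (hN : 8 * t < N) (v : ZMod N × Fin (8 * t)) :
    ((Gr N t).neighborSet v).ncard = 6 * t - 1 := by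
  obtain ⟨x, i, hi⟩ := v
  -- all rows of types are `< 8 t`; send `(d, j)` to the vertex
  let f : ℕ × ℕ → ZMod N × Fin (8 * t) := fun p => (x + p.1, ⟨p.2 % (8 * t), Nat.mod_lt _ (by omega)⟩)
  let g : ℕ × ℕ → ZMod N × Fin (8 * t) := fun p => (x - p.1, ⟨p.2 % (8 * t), Nat.mod_lt _ (by omega)⟩)
  have hO : ∀ p ∈ Of t i, p.1 < 4 * t ∧ p.2 < 8 * t ∧ i ≤ p.2 ∧ (i = p.2 → p.1 = 1) := by
    rintro ⟨d, j⟩ h
    obtain ⟨k, hk, h⟩ := (mem_Of ht hi).1 h
    exact ⟨(h.d_lt hk).1, h.lt.2, h.mono.1, (h.d_lt hk).2⟩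
  have hI : ∀ p ∈ If t i, p.1 < 4 * t ∧ p.2 < 8 * t ∧ p.2 ≤ i ∧ (p.2 = i → p.1 = 1) := by
    rintro ⟨d, j⟩ h
    obtain ⟨k, hk, h⟩ := (mem_If ht hi).1 h
    exact ⟨(h.d_lt hk).1, h.lt.1, h.mono.1, (h.d_lt hk).2⟩
  have hset : (Gr N t).neighborSet (x, ⟨i, hi⟩) = f '' (Of t i) ∪ g '' (If t i) := by
    ext ⟨y, j, hj⟩
    constructor
    · rintro ⟨hne, k, hk, ⟨d, h1, h2⟩ | ⟨d, h1, h2⟩⟩
      · left
        refine ⟨(d, j), (mem_Of ht hi).2 ⟨k, hk, h1⟩, ?_⟩
        simp only [f, Nat.mod_eq_of_lt hj]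
        exact Prod.ext h2.symm rfl
      · right
        refine ⟨(d, j), (mem_If ht hi).2 ⟨k, hk, h1⟩, ?_⟩
        simp only [g, Nat.mod_eq_of_lt hj]
        refine Prod.ext ?_ rfl
        change x - (d : ZMod N) = y
        change x = y + (d : ZMod N) at h2
        rw [h2]; ring
    · rintro (⟨⟨d, j'⟩, h1, h2⟩ | ⟨⟨d, j'⟩, h1, h2⟩)
      · have h3 := hO _ h1
        have h4 : y = x + d ∧ j = j' := by
          simp only [f, Nat.mod_eq_of_lt h3.2.1, Prod.mk.injEq, Fin.mk.injEq] at h2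
          exact ⟨h2.1.symm, h2.2.symm⟩
        obtain ⟨rfl, rfl⟩ := h4
        obtain ⟨k, hk, h5⟩ := (mem_Of ht hi).1 h1
        refine ⟨?_, k, hk, Or.inl ⟨d, h5, rfl⟩⟩
        intro hh
        simp only [Prod.mk.injEq, Fin.mk.injEq] at hh
        obtain ⟨h6, h7⟩ := hh
        have h8 := h3.2.2.2 h7
        have h9 : ((1 : ℕ) : ZMod N) = ((0 : ℕ) : ZMod N) := by
          have : (d : ZMod N) = 0 := by
            have := h6.symm
            simpa using this
          simp only at h8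
          rw [h8] at this
          simpa using this
        exact absurd (natCast_inj_of_lt (by omega) (by omega) h9) (by norm_num)
      · have h3 := hI _ h1
        have h4 : y = x - d ∧ j = j' := by
          simp only [g, Nat.mod_eq_of_lt h3.2.1, Prod.mk.injEq, Fin.mk.injEq] at h2
          exact ⟨h2.1.symm, h2.2.symm⟩
        obtain ⟨rfl, rfl⟩ := h4
        obtain ⟨k, hk, h5⟩ := (mem_If ht hi).1 h1
        refine ⟨?_, k, hk, Or.inr ⟨d, h5, by simp⟩⟩
        intro hh
        simp only [Prod.mk.injEq, Fin.mk.injEq] at hh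
        obtain ⟨h6, h7⟩ := hh
        have h8 := h3.2.2.2 h7.symm
        have h9 : ((1 : ℕ) : ZMod N) = ((0 : ℕ) : ZMod N) := by
          have : (d : ZMod N) = 0 := by
            have := h6.symm
            simpa using this
          simp only at h8
          rw [h8] at this
          simpa using this
        exact absurd (natCast_inj_of_lt (by omega) (by omega) h9) (by norm_num)
  have hf : Set.InjOn f (Of t i) := by
    rintro ⟨d, j⟩ h ⟨d', j'⟩ h' he
    have h1 := hO _ h
    have h2 := hO _ h'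
    simp only [f, Prod.mk.injEq, Fin.mk.injEq, Nat.mod_eq_of_lt h1.2.1,
      Nat.mod_eq_of_lt h2.2.1, add_right_inj] at he
    simp only at h1 h2
    exact Prod.ext (natCast_inj_of_lt (by omega) (by omega) he.1) he.2
  have hg : Set.InjOn g (If t i) := by
    rintro ⟨d, j⟩ h ⟨d', j'⟩ h' he
    have h1 := hI _ h
    have h2 := hI _ h'
    simp only [g, Prod.mk.injEq, Fin.mk.injEq, Nat.mod_eq_of_lt h1.2.1,
      Nat.mod_eq_of_lt h2.2.1, sub_right_inj] at he
    simp only at h1 h2
    exact Prod.ext (natCast_inj_of_lt (by omega) (by omega) he.1) he.2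
  have hdisj : Disjoint (f '' (Of t i)) (g '' (If t i)) := by
    rw [Set.disjoint_left]
    rintro w ⟨⟨d, j⟩, h, rfl⟩ ⟨⟨d', j'⟩, h', he⟩
    have h1 := hO _ h
    have h2 := hI _ h'
    simp only [f, g, Prod.mk.injEq, Fin.mk.injEq, Nat.mod_eq_of_lt h1.2.1,
      Nat.mod_eq_of_lt h2.2.1] at he
    simp only at h1 h2
    have h3 : d = 1 := h1.2.2.2 (by omega)
    have h4 : d' = 1 := h2.2.2.2 (by omega)
    subst h3 h4
    have h9 : ((2 : ℕ) : ZMod N) = ((0 : ℕ) : ZMod N) := by
      have := he.1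
      push_cast at this ⊢
      linear_combination -this
    exact absurd (natCast_inj_of_lt (by omega) (by omega) h9) (by norm_num)
  rw [hset, Set.ncard_union_eq hdisj ((Finset.finite_toSet _).image f)
    ((Finset.finite_toSet _).image g), Set.ncard_image_of_injOn hf, Set.ncard_image_of_injOn hg,
    Set.ncard_coe_finset, Set.ncard_coe_finset, card_Of ht, card_If ht]
  exact card_outC_add_inC ht hi

end Pool.Agent.GeoThick
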