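import Pool.Agent.GeoThick.Defs

/-!
Perturbation lemmas for pairs of segments in the plane.
-/

namespace Pool.Agent.GeoThick

open Filter Topology

lemma mem_seg_iff {a b z : ℝ × ℝ} : z ∈ segment ℝ a b ↔
    ∃ s : ℝ, 0 ≤ s ∧ s ≤ 1 ∧ z = a + s • (b - a) := by
  rw [segment_eq_image']
  constructor
  · rintro ⟨s, ⟨h0, h1⟩, rfl⟩
    exact ⟨s, h0, h1, rfl⟩
  · rintro ⟨s, h0, h1, rfl⟩
    exact ⟨s, ⟨h0, h1⟩, rfl⟩

/-- disjointness of segments is an open condition -/
lemma eventually_disjoint {ι : Type*} {l : Filter ι} {A B C D : ι → ℝ × ℝ} {a b c d : ℝ × ℝ}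
    (hA : Tendsto A l (𝓝 a)) (hB : Tendsto B l (𝓝 b)) (hC : Tendsto C l (𝓝 c))
    (hD : Tendsto D l (𝓝 d)) (h : ∀ z, z ∈ segment ℝ a b → z ∉ segment ℝ c d) :
    ∀ᶠ n in l, ∀ z, z ∈ segment ℝ (A n) (B n) → z ∉ segment ℝ (C n) (D n) := by
  let S : Set (((ℝ × ℝ) × (ℝ × ℝ) × (ℝ × ℝ) × (ℝ × ℝ)) × (unitInterval × unitInterval)) := {w | w.1.1 + (w.2.1 : ℝ) • (w.1.2.1 - w.1.1) =
    w.1.2.2.1 + (w.2.2 : ℝ) • (w.1.2.2.2 - w.1.2.2.1)}
  have hS : IsClosed S := by
    apply isClosed_eq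
    · fun_prop
    · fun_prop
  have hT : IsClosed (Prod.fst '' S) := isClosedMap_fst_of_compactSpace S hS
  have hmem : (a, b, c, d) ∈ (Prod.fst '' S)ᶜ := by
    rintro ⟨⟨⟨a', b', c', d'⟩, s, s'⟩, hw, hw'⟩
    obtain ⟨rfl, rfl, rfl, rfl⟩ : a' = a ∧ b' = b ∧ c' = c ∧ d' = d := by
      simpa [Prod.mk.injEq] using hw'
    exact h _ (mem_seg_iff.2 ⟨s, s.2.1, s.2.2, rfl⟩) (mem_seg_iff.2 ⟨s', s'.2.1, s'.2.2, hw⟩)
  have hlim : Tendsto (fun n => (A n, B n, C n, D n)) l (𝓝 (a, b, c, d)) :=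
    hA.prodMk_nhds (hB.prodMk_nhds (hC.prodMk_nhds hD))
  filter_upwards [hlim (hT.isOpen_compl.mem_nhds hmem)] with n hn z hz hz'
  obtain ⟨s, h0, h1, rfl⟩ := mem_seg_iff.1 hz
  obtain ⟨s', h0', h1', h2⟩ := mem_seg_iff.1 hz'
  exact hn ⟨((A n, B n, C n, D n), ⟨s, h0, h1⟩, ⟨s', h0', h1'⟩), h2, rfl⟩

/-- two segments with a common end point that meet only there: an open condition -/
lemma eventually_shared {ι : Type*} {l : Filter ι} {A B C : ι → ℝ × ℝ} {a b c : ℝ × ℝ}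
    (hA : Tendsto A l (𝓝 a)) (hB : Tendsto B l (𝓝 b)) (hC : Tendsto C l (𝓝 c))
    (hab : a ≠ b) (hac : a ≠ c)
    (h : ∀ z, z ∈ segment ℝ a b → z ∈ segment ℝ a c → z = a) :
    ∀ᶠ n in l, ∀ z, z ∈ segment ℝ (A n) (B n) → z ∈ segment ℝ (A n) (C n) → z = A n := by
  -- cross product nonzero or inner product negative
  let cr : ℝ × ℝ → ℝ × ℝ → ℝ := fun u v => u.1 * v.2 - u.2 * v.1
  let dt : ℝ × ℝ → ℝ × ℝ → ℝ := fun u v => u.1 * v.1 + u.2 * v.2
  have key : cr (b - a) (c - a) ≠ 0 ∨ dt (b - a) (c - a) < 0 := by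
    by_contra hcon
    push Not at hcon
    obtain ⟨h1, h2⟩ := hcon
    set u := b - a with hu
    set v := c - a with hv
    have hu0 : u ≠ 0 := sub_ne_zero.2 hab.symm
    have hv0 : v ≠ 0 := sub_ne_zero.2 hac.symm
    have hvv : 0 < v.1 ^ 2 + v.2 ^ 2 := by
      rcases not_and_or.1 (fun hh : v.1 = 0 ∧ v.2 = 0 => hv0 (Prod.ext hh.1 hh.2)) with hh | hh
      · positivity
      · positivity
    set e : ℝ := 1 / (1 + (v.1 ^ 2 + v.2 ^ 2) + dt u v) with he
    have hden : 0 < 1 + (v.1 ^ 2 + v.2 ^ 2) + dt u v := by linarith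
    have he0 : 0 < e := by positivity
    have hz1 : a + (e * (v.1 ^ 2 + v.2 ^ 2)) • u ∈ segment ℝ a b := by
      refine mem_seg_iff.2 ⟨e * (v.1 ^ 2 + v.2 ^ 2), by positivity, ?_, by rw [hu]⟩
      rw [he, one_div_mul_eq_div, div_le_one hden]
      linarith
    have hz2 : a + (e * dt u v) • v ∈ segment ℝ a c := by
      refine mem_seg_iff.2 ⟨e * dt u v, mul_nonneg he0.le h2, ?_, by rw [hv]⟩
      rw [he, one_div_mul_eq_div, div_le_one hden]
      linarith
    have hzz : a + (e * (v.1 ^ 2 + v.2 ^ 2)) • u = a + (e * dt u v) • v := by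
      have h1' : u.1 * v.2 - u.2 * v.1 = 0 := h1
      congr 1
      ext
      · simp only [Prod.smul_fst, smul_eq_mul, dt]
        linear_combination (e * v.2) * h1'
      · simp only [Prod.smul_snd, smul_eq_mul, dt]
        linear_combination (-e * v.1) * h1'
    have := h _ hz1 (hzz ▸ hz2)
    have h3 : (e * (v.1 ^ 2 + v.2 ^ 2)) • u = 0 := by
      simpa using this
    rcases smul_eq_zero.1 h3 with h4 | h4
    · exact absurd h4 (by positivity)
    · exact hu0 h4
  have hcr : Tendsto (fun n => cr (B n - A n) (C n - A n)) l (𝓝 (cr (b - a) (c - a))) := by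
    have h1 := hB.sub hA
    have h2 := hC.sub hA
    have h11 := (continuous_fst.tendsto _).comp h1
    have h12 := (continuous_snd.tendsto _).comp h1
    have h21 := (continuous_fst.tendsto _).comp h2
    have h22 := (continuous_snd.tendsto _).comp h2
    exact (h11.mul h22).sub (h12.mul h21)
  have hdt : Tendsto (fun n => dt (B n - A n) (C n - A n)) l (𝓝 (dt (b - a) (c - a))) := by
    have h1 := hB.sub hA
    have h2 := hC.sub hA
    have h11 := (continuous_fst.tendsto _).comp h1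
    have h12 := (continuous_snd.tendsto _).comp h1
    have h21 := (continuous_fst.tendsto _).comp h2
    have h22 := (continuous_snd.tendsto _).comp h2
    exact (h11.mul h21).add (h12.mul h22)
  have key2 : ∀ᶠ n in l, cr (B n - A n) (C n - A n) ≠ 0 ∨ dt (B n - A n) (C n - A n) < 0 := by
    rcases key with h1 | h1
    · filter_upwards [hcr.eventually_ne h1] with n hn
      exact Or.inl hn
    · filter_upwards [hdt.eventually (gt_mem_nhds h1)] with n hn
      exact Or.inr hn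
  filter_upwards [key2] with n hn z hz hz'
  obtain ⟨s, h0, h1, rfl⟩ := mem_seg_iff.1 hz
  obtain ⟨s', h0', h1', h2⟩ := mem_seg_iff.1 hz'
  set u := B n - A n
  set v := C n - A n
  have huv : s • u = s' • v := add_left_cancel h2
  have e1 : s * u.1 = s' * v.1 := by simpa using congrArg Prod.fst huv
  have e2 : s * u.2 = s' * v.2 := by simpa using congrArg Prod.snd huv
  by_contra hne
  have hs : s ≠ 0 := by
    rintro rfl
    simp at hne
  have hs0 : 0 < s := lt_of_le_of_ne h0 (Ne.symm hs)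
  rcases hn with hn | hn
  · apply hn
    have : s * (u.1 * v.2 - u.2 * v.1) = 0 := by linear_combination v.2 * e1 - v.1 * e2
    rcases mul_eq_zero.1 this with h | h
    · exact absurd h hs
    · exact h
  · have : s * (u.1 * v.1 + u.2 * v.2) = s' * (v.1 ^ 2 + v.2 ^ 2) := by
      linear_combination v.1 * e1 + v.2 * e2
    have h3 : 0 ≤ s * (u.1 * v.1 + u.2 * v.2) := by rw [this]; positivity
    have h4 : u.1 * v.1 + u.2 * v.2 < 0 := hn
    nlinarith

end Pool.Agent.GeoThick
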