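import Pool.Agent.GeoThick.Constr
import Pool.Agent.GeoThick.Perturb

/-!
Non-crossing in the flat strip.
-/

namespace Pool.Agent.GeoThick

/-- flat position -/
def fl (x : ℤ) (i : ℕ) : ℝ × ℝ := ((x : ℝ), (i : ℝ))

lemma chain0_mono {t i j i' j' : ℕ} (h : Chain0 t i j) (h' : Chain0 t i' j') :
    (i ≤ i' ∧ j ≤ j') ∨ (i' ≤ i ∧ j' ≤ j) := by
  unfold Chain0 at h h'
  omega

lemma chain_mono {t k i j i' j' : ℕ} (h : Chain t k i j) (h' : Chain t k i' j') :
    (i ≤ i' ∧ j ≤ j') ∨ (i' ≤ i ∧ j' ≤ j) := by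
  obtain ⟨-, -, h⟩ := h
  obtain ⟨-, -, h'⟩ := h'
  rcases h with ⟨hk, h⟩ | ⟨hk, h⟩
  · rcases h' with ⟨_, h'⟩ | ⟨hk', _⟩
    · exact chain0_mono h h'
    · exact absurd hk hk'
  · rcases h' with ⟨hk', _⟩ | ⟨_, h'⟩
    · exact absurd hk' hk
    · omega

lemma Ty.lt {t k i d j : ℕ} (h : Ty t k i d j) : i < 8 * t ∧ j < 8 * t := by
  rcases h with ⟨-, h2, h3⟩ | ⟨⟨h1, h2, -⟩, -⟩
  · omega
  · exact ⟨h1, h2⟩

/-- `e = 0`: column edge, `e = 1`: chain edge -/
lemma Ty.cases {t k i d j : ℕ} (h : Ty t k i d j) :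
    ((d : ℝ) = 2 * k * ((j : ℝ) - i) ∧ (j : ℝ) = i + 1) ∨
    (Chain t k i j ∧ (d : ℝ) = 1 + 2 * k * ((j : ℝ) - i)) := by
  rcases h with ⟨h1, h2, h3⟩ | ⟨h1, h2⟩
  · left
    subst h1 h2
    push_cast
    constructor
    · ring
    · ring
  · right
    refine ⟨h1, ?_⟩
    have : ((d + 2 * k * i : ℕ) : ℝ) = ((1 + 2 * k * j : ℕ) : ℝ) := by rw [h2]
    push_cast at this
    linarith

lemma Ty.casesZ {t k i d j : ℕ} (h : Ty t k i d j) :
    ((d : ℤ) = 2 * k * ((j : ℤ) - i) ∧ (j : ℤ) = i + 1) ∨
    (Chain t k i j ∧ (d : ℤ) = 1 + 2 * k * ((j : ℤ) - i)) := by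
  rcases h.cases with ⟨h1, h2⟩ | ⟨h1, h2⟩
  · left
    constructor
    · exact_mod_cast h1
    · exact_mod_cast h2
  · right
    refine ⟨h1, ?_⟩
    exact_mod_cast h2

lemma int01 {n : ℤ} {s : ℝ} (h : s = n) (h0 : 0 ≤ s) (h1 : s ≤ 1) : n = 0 ∨ n = 1 := by
  rw [h] at h0 h1
  have h0' : 0 ≤ n := by exact_mod_cast h0
  have h1' : n ≤ 1 := by exact_mod_cast h1
  omega

lemma seg_fl {x y : ℤ} {i j : ℕ} {z : ℝ × ℝ} (h : z ∈ segment ℝ (fl x i) (fl y j)) :
    ∃ s : ℝ, 0 ≤ s ∧ s ≤ 1 ∧ z.1 = x + s * (y - x) ∧ z.2 = i + s * (j - i) := by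
  obtain ⟨s, h0, h1, rfl⟩ := mem_seg_iff.1 h
  exact ⟨s, h0, h1, by simp [fl], by simp [fl]⟩

lemma flat_vertex {t k i d j : ℕ} (h : Ty t k i d j) {x y : ℤ} {m : ℕ}
    (hz : fl y m ∈ segment ℝ (fl x i) (fl (x + d) j)) :
    (y = x ∧ m = i) ∨ (y = x + d ∧ m = j) := by
  obtain ⟨s, h0, h1, hz1, hz2⟩ := seg_fl hz
  simp only [fl] at hz1 hz2
  push_cast at hz1 hz2
  rcases h.cases with ⟨hd, hj⟩ | ⟨hc, hd⟩
  · have e1 : s = ((m - i : ℤ) : ℝ) := by
      push_cast
      rw [hj] at hz2
      linarith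
    have e2 : (y : ℝ) = x + 2 * k * (m - i) := by
      rw [hz1, hd, hj, e1]; push_cast; ring
    have e2' : y = x + 2 * k * (m - i) := by exact_mod_cast e2
    have hj' : (j : ℤ) = i + 1 := by exact_mod_cast hj
    rcases int01 e1 h0 h1 with h2 | h2
    · left
      have : m = i := by omega
      subst this
      constructor
      · rw [e2']; ring
      · rfl
    · right
      have : m = j := by omega
      subst this
      constructor
      · rw [e2']
        have : (d : ℤ) = 2 * k * ((m : ℤ) - i) := by exact_mod_cast hd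
        rw [this]
      · rfl
  · have e1 : s = ((y - 2 * k * m - x + 2 * k * i : ℤ) : ℝ) := by
      push_cast
      rw [hz1, hd, hz2]
      ring
    rcases int01 e1 h0 h1 with h2 | h2
    · left
      rw [h2] at e1
      have : (m : ℝ) = i := by rw [hz2, e1]; simp
      have hm : m = i := by exact_mod_cast this
      subst hm
      exact ⟨by linarith, rfl⟩
    · right
      rw [h2] at e1
      have : (m : ℝ) = j := by rw [hz2, e1]; push_cast; ring
      have hm : m = j := by exact_mod_cast this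
      subst hm
      have : (d : ℤ) = 1 + 2 * k * ((m : ℤ) - i) := by exact_mod_cast hd
      exact ⟨by rw [this]; linarith, rfl⟩

lemma flat_nc {t k i d j i' d' j' : ℕ} (h : Ty t k i d j) (h' : Ty t k i' d' j') {x x' : ℤ}
    (hne : ¬ (x = x' ∧ i = i' ∧ d = d' ∧ j = j')) {z : ℝ × ℝ}
    (hz : z ∈ segment ℝ (fl x i) (fl (x + d) j))
    (hz' : z ∈ segment ℝ (fl x' i') (fl (x' + d') j')) :
    (x = x' ∧ i = i' ∧ z = fl x i) ∨ (x = x' + d' ∧ i = j' ∧ z = fl x i) ∨
    (x + d = x' ∧ j = i' ∧ z = fl x' i') ∨ (x + d = x' + d' ∧ j = j' ∧ z = fl (x + d) j) := by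
  -- points at parameter 0 or 1
  obtain ⟨s, h0, h1, hz1, hz2⟩ := seg_fl hz
  obtain ⟨s', h0', h1', hz1', hz2'⟩ := seg_fl hz'
  have zs0 : s = 0 → z = fl x i := by
    rintro rfl; ext <;> simp [fl, hz1, hz2]
  have zs1 : s = 1 → z = fl (x + d) j := by
    rintro rfl; ext <;> simp [fl, hz1, hz2]
  have zs0' : s' = 0 → z = fl x' i' := by
    rintro rfl; ext <;> simp [fl, hz1', hz2']
  have zs1' : s' = 1 → z = fl (x' + d') j' := by
    rintro rfl; ext <;> simp [fl, hz1', hz2']
  -- it suffices to find an integer point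
  have red : ∀ (y : ℤ) (m : ℕ), z = fl y m →
      (x = x' ∧ i = i' ∧ z = fl x i) ∨ (x = x' + d' ∧ i = j' ∧ z = fl x i) ∨
      (x + d = x' ∧ j = i' ∧ z = fl x' i') ∨ (x + d = x' + d' ∧ j = j' ∧ z = fl (x + d) j) := by
    rintro y m rfl
    rcases flat_vertex h hz with ⟨rfl, rfl⟩ | ⟨rfl, rfl⟩
    · rcases flat_vertex h' hz' with ⟨rfl, rfl⟩ | ⟨rfl, rfl⟩
      · exact Or.inl ⟨rfl, rfl, rfl⟩
      · exact Or.inr (Or.inl ⟨rfl, rfl, rfl⟩)
    · rcases flat_vertex h' hz' with ⟨h1, rfl⟩ | ⟨h1, rfl⟩
      · exact Or.inr (Or.inr (Or.inl ⟨h1, rfl, by rw [h1]⟩))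
      · exact Or.inr (Or.inr (Or.inr ⟨h1, rfl, rfl⟩))
  push_cast at hz1 hz1'
  rcases h.cases with ⟨hd, hj⟩ | ⟨hc, hd⟩
  · rcases h'.cases with ⟨hd', hj'⟩ | ⟨hc', hd'⟩
    · -- column, column
      have e1 : (x : ℝ) - 2 * k * i = x' - 2 * k * i' := by
        have a1 : z.1 - 2 * k * z.2 = x - 2 * k * i := by rw [hz1, hz2, hd, hj]; ring
        have a2 : z.1 - 2 * k * z.2 = x' - 2 * k * i' := by rw [hz1', hz2', hd', hj']; ring
        linarith
      have e2 : (i : ℝ) + s = i' + s' := by
        rw [hj] at hz2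
        rw [hj'] at hz2'
        linarith
      have e1' : x - 2 * k * i = x' - 2 * k * i' := by exact_mod_cast e1
      have i1 : (i : ℝ) ≤ i' + 1 := by linarith
      have i2 : (i' : ℝ) ≤ i + 1 := by linarith
      have i1' : i ≤ i' + 1 := by exact_mod_cast i1
      have i2' : i' ≤ i + 1 := by exact_mod_cast i2
      rcases Nat.lt_trichotomy i i' with hlt | heq | hgt
      · have : i' = i + 1 := by omega
        subst this
        push_cast at e2
        exact red _ _ (zs0' (by linarith))
      · exfalso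
        subst heq
        have hj1 : (j : ℝ) = j' := by rw [hj, hj']
        have hd1 : (d : ℝ) = d' := by rw [hd, hd', hj1]
        exact hne ⟨by linarith, rfl, by exact_mod_cast hd1, by exact_mod_cast hj1⟩
      · have : i = i' + 1 := by omega
        subst this
        push_cast at e2
        exact red _ _ (zs0 (by linarith))
    · -- column, chain
      have e1 : s' = ((x - 2 * k * i - x' + 2 * k * i' : ℤ) : ℝ) := by
        have a1 : z.1 - 2 * k * z.2 = x - 2 * k * i := by rw [hz1, hz2, hd, hj]; ring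
        have a2 : z.1 - 2 * k * z.2 = x' - 2 * k * i' + s' := by rw [hz1', hz2', hd']; ring
        push_cast
        linarith
      rcases int01 e1 h0' h1' with h2 | h2
      · exact red _ _ (zs0' (by rw [e1, h2]; simp))
      · exact red _ _ (zs1' (by rw [e1, h2]; simp))
  · rcases h'.cases with ⟨hd', hj'⟩ | ⟨hc', hd'⟩
    · have e1 : s = ((x' - 2 * k * i' - x + 2 * k * i : ℤ) : ℝ) := by
        have a1 : z.1 - 2 * k * z.2 = x - 2 * k * i + s := by rw [hz1, hz2, hd]; ring
        have a2 : z.1 - 2 * k * z.2 = x' - 2 * k * i' := by rw [hz1', hz2', hd', hj']; ring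
        push_cast
        linarith
      rcases int01 e1 h0 h1 with h2 | h2
      · exact red _ _ (zs0 (by rw [e1, h2]; simp))
      · exact red _ _ (zs1 (by rw [e1, h2]; simp))
    · have e1 : s - s' = ((x' - 2 * k * i' - x + 2 * k * i : ℤ) : ℝ) := by
        have a1 : z.1 - 2 * k * z.2 = x - 2 * k * i + s := by rw [hz1, hz2, hd]; ring
        have a2 : z.1 - 2 * k * z.2 = x' - 2 * k * i' + s' := by rw [hz1', hz2', hd']; ring
        push_cast
        linarith
      set n : ℤ := x' - 2 * k * i' - x + 2 * k * i with hn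
      have n1 : (-1 : ℝ) ≤ n := by rw [← e1]; linarith
      have n2 : (n : ℝ) ≤ 1 := by rw [← e1]; linarith
      have n1' : -1 ≤ n := by exact_mod_cast n1
      have n2' : n ≤ 1 := by exact_mod_cast n2
      have : n = -1 ∨ n = 0 ∨ n = 1 := by omega
      rcases this with h2 | h2 | h2
      · rw [h2] at e1
        push_cast at e1
        exact red _ _ (zs0 (by linarith))
      · rw [h2] at e1
        push_cast at e1
        have hss : s = s' := by linarith
        subst hss
        have e3 : (1 - s) * ((i : ℝ) - i') + s * (j - j') = 0 := by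
          have : (i : ℝ) + s * (j - i) = i' + s * (j' - i') := by rw [← hz2, ← hz2']
          linarith
        have fin : s = 0 ∨ s = 1 → (x = x' ∧ i = i' ∧ z = fl x i) ∨
            (x = x' + d' ∧ i = j' ∧ z = fl x i) ∨
            (x + d = x' ∧ j = i' ∧ z = fl x' i') ∨
            (x + d = x' + d' ∧ j = j' ∧ z = fl (x + d) j) := by
          rintro (h3 | h3)
          · exact red _ _ (zs0 h3)
          · exact red _ _ (zs1 h3)
        have hne2 : ¬ (i = i' ∧ j = j') := by
          rintro ⟨rfl, rfl⟩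
          have hd1 : (d : ℝ) = d' := by rw [hd, hd']
          exact hne ⟨by linarith, rfl, by exact_mod_cast hd1, rfl⟩
        apply fin
        rcases chain_mono hc hc' with ⟨m1, m2⟩ | ⟨m1, m2⟩
        · have m1' : (i : ℝ) ≤ i' := by exact_mod_cast m1
          have m2' : (j : ℝ) ≤ j' := by exact_mod_cast m2
          have p1 : 0 ≤ (1 - s) * ((i' : ℝ) - i) := mul_nonneg (by linarith) (by linarith)
          have p2 : 0 ≤ s * ((j' : ℝ) - j) := mul_nonneg h0 (by linarith)
          have p3 : (1 - s) * ((i' : ℝ) - i) = 0 := by linarith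
          have p4 : s * ((j' : ℝ) - j) = 0 := by linarith
          rcases mul_eq_zero.1 p3 with q | q
          · right; linarith
          · rcases mul_eq_zero.1 p4 with r | r
            · left; exact r
            · exfalso
              apply hne2
              constructor
              · have : (i : ℝ) = i' := by linarith
                exact_mod_cast this
              · have : (j : ℝ) = j' := by linarith
                exact_mod_cast this
        · have m1' : (i' : ℝ) ≤ i := by exact_mod_cast m1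
          have m2' : (j' : ℝ) ≤ j := by exact_mod_cast m2
          have p1 : 0 ≤ (1 - s) * ((i : ℝ) - i') := mul_nonneg (by linarith) (by linarith)
          have p2 : 0 ≤ s * ((j : ℝ) - j') := mul_nonneg h0 (by linarith)
          have p3 : (1 - s) * ((i : ℝ) - i') = 0 := by linarith
          have p4 : s * ((j : ℝ) - j') = 0 := by linarith
          rcases mul_eq_zero.1 p3 with q | q
          · right; linarith
          · rcases mul_eq_zero.1 p4 with r | r
            · left; exact r
            · exfalso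
              apply hne2
              constructor
              · have : (i : ℝ) = i' := by linarith
                exact_mod_cast this
              · have : (j : ℝ) = j' := by linarith
                exact_mod_cast this
      · rw [h2] at e1
        push_cast at e1
        exact red _ _ (zs0' (by linarith))

end Pool.Agent.GeoThick
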