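import Pool.Agent.GeoThick.Annulus

/-!
Near pairs, for all large `N`; then all pairs of edges of one class.
-/

namespace Pool.Agent.GeoThick

open Filter Topology Real

lemma eventually_good {ι : Type*} {l : Filter ι} {A B C D : ι → ℝ × ℝ} {a b c d : ℝ × ℝ}
    (hA : Tendsto A l (𝓝 a)) (hB : Tendsto B l (𝓝 b)) (hC : Tendsto C l (𝓝 c))
    (hD : Tendsto D l (𝓝 d)) (hab : a ≠ b) (hcd : c ≠ d) (hne : ¬ (a = c ∧ b = d))
    (hne' : ¬ (a = d ∧ b = c)) (hAC : a = c → A = C) (hAD : a = d → A = D)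
    (hBC : b = c → B = C) (hBD : b = d → B = D)
    (h : ∀ z, z ∈ segment ℝ a b → z ∈ segment ℝ c d → (z = a ∨ z = b) ∧ (z = c ∨ z = d)) :
    ∀ᶠ n in l, ∀ z, z ∈ segment ℝ (A n) (B n) → z ∈ segment ℝ (C n) (D n) →
      (z = A n ∨ z = B n) ∧ (z = C n ∨ z = D n) := by
  by_cases h1 : a = c
  · have hAC' := hAC h1
    subst h1
    subst hAC'
    have hbd : b ≠ d := fun hh => hne ⟨rfl, hh⟩
    have := eventually_shared hA hB hD hab hcd (fun z hz hz' => by
      obtain ⟨h2 | h2, h3 | h3⟩ := h z hz hz'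
      · exact h2
      · exact h2
      · exact h3
      · exact absurd (h2.symm.trans h3) hbd)
    filter_upwards [this] with n hn z hz hz'
    have := hn z hz hz'
    exact ⟨Or.inl this, Or.inl this⟩
  by_cases h2 : a = d
  · have hAD' := hAD h2
    subst h2
    subst hAD'
    have hbc : b ≠ c := fun hh => hne' ⟨rfl, hh⟩
    have := eventually_shared hA hB hC hab (Ne.symm hcd) (fun z hz hz' => by
      obtain ⟨h2 | h2, h3 | h3⟩ := h z hz (by rwa [segment_symm])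
      · exact h2
      · exact h2
      · exact absurd (h2.symm.trans h3) hbc
      · exact h3)
    filter_upwards [this] with n hn z hz hz'
    have := hn z hz (by rwa [segment_symm])
    exact ⟨Or.inl this, Or.inr this⟩
  by_cases h3 : b = c
  · have hBC' := hBC h3
    subst h3
    subst hBC'
    have hbc : a ≠ d := h2
    have := eventually_shared hB hA hD (Ne.symm hab) hcd (fun z hz hz' => by
      obtain ⟨h2 | h2, h3 | h3⟩ := h z (by rwa [segment_symm]) hz'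
      · exact h3
      · exact absurd (h2.symm.trans h3) hbc
      · exact h2
      · exact h2)
    filter_upwards [this] with n hn z hz hz'
    have := hn z (by rwa [segment_symm]) hz'
    exact ⟨Or.inr this, Or.inl this⟩
  by_cases h4 : b = d
  · have hBD' := hBD h4
    subst h4
    subst hBD'
    have := eventually_shared hB hA hC (Ne.symm hab) (Ne.symm hcd) (fun z hz hz' => by
      obtain ⟨h2 | h2, h3 | h3⟩ := h z (by rwa [segment_symm]) (by rwa [segment_symm])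
      · exact absurd (h2.symm.trans h3) h1
      · exact h3
      · exact h2
      · exact h2)
    filter_upwards [this] with n hn z hz hz'
    have := hn z (by rwa [segment_symm]) (by rwa [segment_symm])
    exact ⟨Or.inr this, Or.inr this⟩
  have := eventually_disjoint hA hB hC hD (fun z hz hz' => by
    obtain ⟨h5 | h5, h6 | h6⟩ := h z hz hz'
    · exact h1 (h5.symm.trans h6)
    · exact h2 (h5.symm.trans h6)
    · exact h3 (h5.symm.trans h6)
    · exact h4 (h5.symm.trans h6))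
  filter_upwards [this] with n hn z hz hz'
  exact absurd hz' (hn z hz)

lemma seg_sub {a b z v : ℝ × ℝ} (h : z ∈ segment ℝ a b) : z - v ∈ segment ℝ (a - v) (b - v) := by
  obtain ⟨s, h0, h1, rfl⟩ := mem_seg_iff.1 h
  exact mem_seg_iff.2 ⟨s, h0, h1, by rw [sub_sub_sub_cancel_right]; abel⟩

lemma Ty.mono {t k i d j : ℕ} (h : Ty t k i d j) : i ≤ j ∧ ¬ (i = j ∧ d = 0) := by
  rcases h with ⟨-, h2, h3⟩ | ⟨⟨h1, h2, h3⟩, h4⟩
  · omega
  · rcases h3 with ⟨rfl, h3⟩ | ⟨hk, h3⟩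
    · unfold Chain0 at h3
      constructor
      · omega
      · omega
    · constructor
      · omega
      · omega

lemma Ty.d_le {t k i d j : ℕ} (hk : k < t) (h : Ty t k i d j) : d ≤ 1 + 16 * t ^ 2 := by
  have h1 := h.lt
  have h2 : d ≤ 1 + 2 * k * j := by
    rcases h with ⟨h2, h3, -⟩ | ⟨-, h4⟩
    · have : 2 * k * 1 ≤ 2 * k * j := Nat.mul_le_mul_left _ (by omega)
      omega
    · omega
  have h3 : 2 * k * j ≤ 2 * t * (8 * t) := Nat.mul_le_mul (by omega) (by omega)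
  nlinarith

/-- near pairs of edges -/
lemma near_edges {t k i d j i' d' j' : ℕ} (h : Ty t k i d j) (h' : Ty t k i' d' j') (δ : ℤ)
    (hne : ¬ (δ = 0 ∧ i = i' ∧ d = d' ∧ j = j')) :
    ∀ᶠ N : ℕ in atTop, ∀ z, z ∈ segment ℝ (P N 0 i) (P N d j) →
      z ∈ segment ℝ (P N δ i') (P N (δ + d') j') →
      (z = P N 0 i ∨ z = P N d j) ∧ (z = P N δ i' ∨ z = P N (δ + d') j') := by
  have hm := h.mono
  have hm' := h'.mono
  have key := eventually_good (tendsto_P 0 i) (tendsto_P d j) (tendsto_P δ i')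
    (tendsto_P (δ + d') j') ?_ ?_ ?_ ?_ ?_ ?_ ?_ ?_ ?_
  · filter_upwards [key] with N hN z hz hz'
    have := hN _ (seg_sub hz) (seg_sub hz')
    simpa only [sub_left_inj] using this
  · intro hh
    obtain ⟨h1, h2⟩ := fl_inj hh
    omega
  · intro hh
    obtain ⟨h1, h2⟩ := fl_inj hh
    omega
  · rintro ⟨hh, hh'⟩
    obtain ⟨h1, h2⟩ := fl_inj hh
    obtain ⟨h3, h4⟩ := fl_inj hh'
    exact hne ⟨h1.symm, h2, by omega, h4⟩
  · rintro ⟨hh, hh'⟩
    obtain ⟨h1, h2⟩ := fl_inj hh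
    obtain ⟨h3, h4⟩ := fl_inj hh'
    omega
  · intro hh
    obtain ⟨h1, h2⟩ := fl_inj hh
    rw [h1, h2]
  · intro hh
    obtain ⟨h1, h2⟩ := fl_inj hh
    rw [← h1, h2]
  · intro hh
    obtain ⟨h1, h2⟩ := fl_inj hh
    rw [h1, h2]
  · intro hh
    obtain ⟨h1, h2⟩ := fl_inj hh
    rw [h1, h2]
  · intro z hz hz'
    have hz0 : z ∈ segment ℝ (fl 0 i) (fl (0 + d) j) := by rwa [zero_add]
    rcases flat_nc h h' (x := 0) (x' := δ) (by
      rintro ⟨h1, h2⟩; exact hne ⟨h1.symm, h2⟩) hz0 hz' with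
      ⟨h1, h2, h3⟩ | ⟨h1, h2, h3⟩ | ⟨h1, h2, h3⟩ | ⟨h1, h2, h3⟩
    · exact ⟨Or.inl h3, Or.inl (by rw [h3, h1, h2])⟩
    · exact ⟨Or.inl h3, Or.inr (by rw [h3, ← h1, h2])⟩
    · refine ⟨Or.inr (by rw [h3, ← h1, h2, zero_add]), Or.inl h3⟩
    · refine ⟨Or.inr (by rw [h3, zero_add]), Or.inr (by rw [h3, h1, h2])⟩

/-- near vertices and edges -/
lemma near_vertex {t k i d j : ℕ} (h : Ty t k i d j) (δ : ℤ) (m : ℕ)
    (hne : ¬ (δ = 0 ∧ m = i)) (hne' : ¬ (δ = d ∧ m = j)) :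
    ∀ᶠ N : ℕ in atTop, P N δ m ∉ segment ℝ (P N 0 i) (P N d j) := by
  have key := eventually_disjoint (tendsto_P δ m) (tendsto_P δ m) (tendsto_P 0 i)
    (tendsto_P d j) (fun z hz hz' => by
      rw [segment_same, Set.mem_singleton_iff] at hz
      subst hz
      have hz0 : fl δ m ∈ segment ℝ (fl 0 i) (fl (0 + d) j) := by rwa [zero_add]
      rcases flat_vertex h hz0 with h1 | h1
      · exact hne h1
      · exact hne' ⟨by rw [h1.1, zero_add], h1.2⟩)
  filter_upwards [key] with N hN hmem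
  exact hN _ (left_mem_segment ℝ _ _) (seg_sub hmem)

lemma near_inj (i m : ℕ) (δ : ℤ) (hne : ¬ (δ = 0 ∧ m = i)) :
    ∀ᶠ N : ℕ in atTop, P N δ m ≠ P N 0 i := by
  have h1 : fl δ m ≠ fl 0 i := fun h => hne (fl_inj h)
  have key := (tendsto_P δ m).sub (tendsto_P 0 i)
  filter_upwards [key.eventually_ne (sub_ne_zero.2 h1)] with N hN h
  apply hN
  rw [h, sub_self]

/-- the properties of `N` that we need -/
structure Large (t N : ℕ) : Prop where
  big : 16 * (16 * t ^ 2 + 16 * t + 1) < N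
  edges : ∀ k < t, ∀ i d j i' d' j' : ℕ, ∀ δ : ℤ, |δ| ≤ 4 * ((16 * t ^ 2 + 16 * t + 1 : ℕ) : ℤ) →
    Ty t k i d j → Ty t k i' d' j' → ¬ (δ = 0 ∧ i = i' ∧ d = d' ∧ j = j') →
    ∀ z, z ∈ segment ℝ (P N 0 i) (P N d j) →
      z ∈ segment ℝ (P N δ i') (P N (δ + d') j') →
      (z = P N 0 i ∨ z = P N d j) ∧ (z = P N δ i' ∨ z = P N (δ + d') j')
  vertex : ∀ k < t, ∀ i d j m : ℕ, m < 8 * t → ∀ δ : ℤ,
    |δ| ≤ 4 * ((16 * t ^ 2 + 16 * t + 1 : ℕ) : ℤ) →
    Ty t k i d j → ¬ (δ = 0 ∧ m = i) → ¬ (δ = d ∧ m = j) →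
    P N δ m ∉ segment ℝ (P N 0 i) (P N d j)
  inj : ∀ i m : ℕ, i < 8 * t → m < 8 * t → ∀ δ : ℤ,
    |δ| ≤ 4 * ((16 * t ^ 2 + 16 * t + 1 : ℕ) : ℤ) → ¬ (δ = 0 ∧ m = i) → P N δ m ≠ P N 0 i

lemma exists_large (t : ℕ) : ∃ N, Large t N := by
  have hcoarse : ∀ᶠ N : ℕ in atTop, Large t N := by
    set D : ℤ := 4 * ((16 * t ^ 2 + 16 * t + 1 : ℕ) : ℤ) with hD
    have e1 : ∀ᶠ N : ℕ in atTop, 16 * (16 * t ^ 2 + 16 * t + 1) < N := eventually_gt_atTop _
    have e2 : ∀ᶠ N : ℕ in atTop, ∀ k ∈ Finset.range t, ∀ i ∈ Finset.range (8 * t),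
        ∀ d ∈ Finset.range (2 + 16 * t ^ 2), ∀ j ∈ Finset.range (8 * t),
        ∀ i' ∈ Finset.range (8 * t), ∀ d' ∈ Finset.range (2 + 16 * t ^ 2),
        ∀ j' ∈ Finset.range (8 * t), ∀ δ ∈ Finset.Icc (-D) D,
        Ty t k i d j → Ty t k i' d' j' → ¬ (δ = 0 ∧ i = i' ∧ d = d' ∧ j = j') →
        ∀ z, z ∈ segment ℝ (P N 0 i) (P N d j) →
          z ∈ segment ℝ (P N δ i') (P N (δ + d') j') →
          (z = P N 0 i ∨ z = P N d j) ∧ (z = P N δ i' ∨ z = P N (δ + d') j') := by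
      simp only [eventually_all_finset]
      intro k _ i _ d _ j _ i' _ d' _ j' _ δ _
      by_cases h : Ty t k i d j ∧ Ty t k i' d' j' ∧ ¬ (δ = 0 ∧ i = i' ∧ d = d' ∧ j = j')
      · filter_upwards [near_edges h.1 h.2.1 δ h.2.2] with N hN _ _ _
        exact hN
      · exact Eventually.of_forall fun N h1 h2 h3 => absurd ⟨h1, h2, h3⟩ h
    have e3 : ∀ᶠ N : ℕ in atTop, ∀ k ∈ Finset.range t, ∀ i ∈ Finset.range (8 * t),
        ∀ d ∈ Finset.range (2 + 16 * t ^ 2), ∀ j ∈ Finset.range (8 * t),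
        ∀ m ∈ Finset.range (8 * t), ∀ δ ∈ Finset.Icc (-D) D,
        Ty t k i d j → ¬ (δ = 0 ∧ m = i) → ¬ (δ = d ∧ m = j) →
        P N δ m ∉ segment ℝ (P N 0 i) (P N d j) := by
      simp only [eventually_all_finset]
      intro k _ i _ d _ j _ m _ δ _
      by_cases h : Ty t k i d j ∧ ¬ (δ = 0 ∧ m = i) ∧ ¬ (δ = d ∧ m = j)
      · filter_upwards [near_vertex h.1 δ m h.2.1 h.2.2] with N hN _ _ _
        exact hN
      · exact Eventually.of_forall fun N h1 h2 h3 => absurd ⟨h1, h2, h3⟩ h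
    have e4 : ∀ᶠ N : ℕ in atTop, ∀ i ∈ Finset.range (8 * t),
        ∀ m ∈ Finset.range (8 * t), ∀ δ ∈ Finset.Icc (-D) D,
        ¬ (δ = 0 ∧ m = i) → P N δ m ≠ P N 0 i := by
      simp only [eventually_all_finset]
      intro i _ m _ δ _
      by_cases h : ¬ (δ = 0 ∧ m = i)
      · filter_upwards [near_inj i m δ h] with N hN _
        exact hN
      · exact Eventually.of_forall fun N h1 => absurd h1 h
    filter_upwards [e1, e2, e3, e4] with N h1 h2 h3 h4
    refine ⟨h1, ?_, ?_, ?_⟩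
    · intro k hk i d j i' d' j' δ hδ h h' hne
      have hd := h.d_le hk
      have hd' := h'.d_le hk
      refine h2 k (Finset.mem_range.2 hk) i (Finset.mem_range.2 h.lt.1) d
        (Finset.mem_range.2 (by omega)) j (Finset.mem_range.2 h.lt.2) i'
        (Finset.mem_range.2 h'.lt.1) d' (Finset.mem_range.2 (by omega)) j'
        (Finset.mem_range.2 h'.lt.2) δ (Finset.mem_Icc.2 (abs_le.1 hδ)) h h' hne
    · intro k hk i d j m hm δ hδ h hne hne'
      have hd := h.d_le hk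
      exact h3 k (Finset.mem_range.2 hk) i (Finset.mem_range.2 h.lt.1) d
        (Finset.mem_range.2 (by omega)) j (Finset.mem_range.2 h.lt.2) m
        (Finset.mem_range.2 hm) δ (Finset.mem_Icc.2 (abs_le.1 hδ)) h hne hne'
    · intro i m hi hm δ hδ hne
      exact h4 i (Finset.mem_range.2 hi) m (Finset.mem_range.2 hm) δ
        (Finset.mem_Icc.2 (abs_le.1 hδ)) hne
  exact hcoarse.exists

end Pool.Agent.GeoThick
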