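import Pool.Agent.GeoThick.Defs
import Pool.Agent.GT.PartA

/-!
# Upper bound: a non-crossing straight-line drawing on `n ≥ 1` points has fewer than `3 n` edges
-/

namespace Pool.Agent.GeoThick

lemma plane_of_nonCrossing {V : Type*} {H : SimpleGraph V} {p : V → ℝ × ℝ} (hp : IsDrawing H p)
    (hc : NonCrossing H p) : GT.Plane p H.Adj := by
  refine ⟨fun u v w => hp.not_mem u v w, ?_⟩
  intro u v x y huv hxy hne z hz1 hz2
  by_contra hcon
  exact hc u v x y huv hxy hne ⟨z, hz1, hz2, fun ⟨w, h1, h2, h3⟩ => hcon ⟨w, h1, h2, h3⟩⟩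

theorem ncard_edges_lt {V : Type*} [Finite V] [Nonempty V] (H : SimpleGraph V)
    (p : V → ℝ × ℝ) (hp : IsDrawing H p) (hc : NonCrossing H p) :
    H.edgeSet.ncard < 3 * Nat.card V :=
  GT.edges_lt p H hp.inj (plane_of_nonCrossing hp hc)

theorem card_edges_lt {V : Type*} [Fintype V] [Nonempty V] (H : SimpleGraph V)
    [DecidableRel H.Adj] (p : V → ℝ × ℝ) (hp : IsDrawing H p) (hc : NonCrossing H p) :
    H.edgeFinset.card < 3 * Fintype.card V := by
  have h := ncard_edges_lt H p hp hc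
  rwa [Nat.card_eq_fintype_card, ← SimpleGraph.coe_edgeFinset, Set.ncard_coe_finset] at h

end Pool.Agent.GeoThick
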